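import Mathlib

/-!
Basic tools on context-free grammars: big-step derivations (with sizes), languages denoted by
sentential forms over a family of languages, and s-interpretations.
-/

namespace Pool.Agent.GF

open ContextFreeGrammar

variable {T : Type}

/-- terminal words as sentential forms -/
abbrev tm {T N : Type} (w : List T) : List (Symbol T N) := w.map Symbol.terminal

/-- Big-step derivations with sizes. -/
inductive LD (g : ContextFreeGrammar T) :
    ℕ → List (Symbol T g.NT) → List (Symbol T g.NT) → Prop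
  | nil : LD g 0 [] []
  | skip (s : Symbol T g.NT) {n : ℕ} {α β : List (Symbol T g.NT)} (h : LD g n α β) :
      LD g n (s :: α) (s :: β)
  | rule (r : ContextFreeRule T g.NT) (hr : r ∈ g.rules) {n m : ℕ}
      {β₁ α β₂ : List (Symbol T g.NT)} (h1 : LD g n r.output β₁) (h2 : LD g m α β₂) :
      LD g (n + m + 1) (Symbol.nonterminal r.input :: α) (β₁ ++ β₂)

variable {g : ContextFreeGrammar T}

theorem LD.refl (α : List (Symbol T g.NT)) : LD g 0 α α := by
  induction α with
  | nil => exact LD.nil
  | cons s α ih => exact LD.skip s ih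

theorem LD.append {n : ℕ} {α β : List (Symbol T g.NT)} (h : LD g n α β) {m : ℕ}
    {α' β' : List (Symbol T g.NT)} (h' : LD g m α' β') : LD g (n + m) (α ++ α') (β ++ β') := by
  induction h with
  | nil => simpa using h'
  | skip s _ ih => exact LD.skip s ih
  | @rule r hr n1 m1 β₁ α β₂ h1 h2 ih1 ih2 =>
    have := LD.rule r hr h1 ih2
    have e : n1 + (m1 + m) + 1 = n1 + m1 + 1 + m := by ring
    rw [e] at this
    simpa using this

theorem LD.split {n : ℕ} {γ β : List (Symbol T g.NT)} (h : LD g n γ β) :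
    ∀ α α' : List (Symbol T g.NT), γ = α ++ α' → ∃ n1 n2 β₁ β₂, n1 + n2 = n ∧ β = β₁ ++ β₂ ∧
      LD g n1 α β₁ ∧ LD g n2 α' β₂ := by
  induction h with
  | nil =>
    intro α α' he
    obtain ⟨rfl, rfl⟩ := List.append_eq_nil_iff.1 he.symm
    exact ⟨0, 0, [], [], rfl, rfl, LD.nil, LD.nil⟩
  | @skip s n α0 β0 h ih =>
    intro α α' he
    cases α with
    | nil =>
      refine ⟨0, n, [], s :: β0, by omega, rfl, LD.nil, ?_⟩
      simp only [List.nil_append] at he
      subst he
      exact LD.skip s h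
    | cons a α =>
      simp only [List.cons_append, List.cons.injEq] at he
      obtain ⟨rfl, rfl⟩ := he
      obtain ⟨n1, n2, β₁, β₂, h1, rfl, h3, h4⟩ := ih α α' rfl
      exact ⟨n1, n2, s :: β₁, β₂, h1, rfl, LD.skip s h3, h4⟩
  | @rule r hr n1 m1 β₁ α0 β₂ h1 h2 ih1 ih2 =>
    intro α α' he
    cases α with
    | nil =>
      simp only [List.nil_append] at he
      subst he
      exact ⟨0, n1 + m1 + 1, [], β₁ ++ β₂, by omega, rfl, LD.nil, LD.rule r hr h1 h2⟩
    | cons a α =>
      simp only [List.cons_append, List.cons.injEq] at he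
      obtain ⟨rfl, rfl⟩ := he
      obtain ⟨k1, k2, γ₁, γ₂, e1, rfl, h3, h4⟩ := ih2 α α' rfl
      exact ⟨n1 + k1 + 1, k2, β₁ ++ γ₁, γ₂, by omega, by simp, LD.rule r hr h1 h3, h4⟩

theorem LD.derives {n : ℕ} {α β : List (Symbol T g.NT)} (h : LD g n α β) : g.Derives α β := by
  induction h with
  | nil => exact Derives.refl _
  | skip s _ ih => exact ih.append_left [s]
  | @rule r hr n1 m1 β₁ α0 β₂ h1 h2 ih1 ih2 =>
    have h3 : g.Derives (Symbol.nonterminal r.input :: α0) (r.output ++ α0) :=
      Produces.single ⟨r, hr, ContextFreeRule.Rewrites.head α0⟩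
    exact h3.trans ((ih1.append_right α0).trans (ih2.append_left β₁))

theorem LD.of_derives {α β : List (Symbol T g.NT)} (h : g.Derives α β) : ∃ n, LD g n α β := by
  induction h using Relation.ReflTransGen.head_induction_on with
  | refl => exact ⟨0, LD.refl _⟩
  | @head a c h1 _ ih =>
    obtain ⟨r, hr, hrw⟩ := h1
    obtain ⟨p, q, rfl, rfl⟩ := hrw.exists_parts
    obtain ⟨n, hn⟩ := ih
    obtain ⟨n1, n2, β₁, β₂, rfl, rfl, h1, h2⟩ := hn.split (p ++ r.output) q rfl
    obtain ⟨n3, n4, β₃, β₄, rfl, rfl, h3, h4⟩ := h1.split p r.output rfl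
    have h5 := (h3.append (LD.rule r hr h4 h2))
    exact ⟨_, by simpa using h5⟩

theorem derives_append {α β α' β' : List (Symbol T g.NT)} (h : g.Derives α β)
    (h' : g.Derives α' β') : g.Derives (α ++ α') (β ++ β') :=
  (h.append_right α').trans (h'.append_left β)

theorem derives_rule {r : ContextFreeRule T g.NT} (hr : r ∈ g.rules)
    {β : List (Symbol T g.NT)} (h : g.Derives r.output β) :
    g.Derives [Symbol.nonterminal r.input] β :=
  (Produces.single ⟨r, hr, ContextFreeRule.Rewrites.input_output⟩).trans h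

/-- language denoted by a sentential form over a family of languages -/
def den {Δ I : Type} (F : I → Set (List Δ)) : List (Symbol Δ I) → Set (List Δ)
  | [] => {[]}
  | Symbol.terminal a :: γ => {w | ∃ v ∈ den F γ, w = a :: v}
  | Symbol.nonterminal i :: γ => {w | ∃ u ∈ F i, ∃ v ∈ den F γ, w = u ++ v}

section den
variable {Δ I : Type} {F : I → Set (List Δ)}

@[simp] theorem mem_den_nil {w : List Δ} : w ∈ den F [] ↔ w = [] := Iff.rfl

@[simp] theorem mem_den_terminal {a : Δ} {γ : List (Symbol Δ I)} {w : List Δ} :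
    w ∈ den F (Symbol.terminal a :: γ) ↔ ∃ v ∈ den F γ, w = a :: v := Iff.rfl

@[simp] theorem mem_den_nonterminal {i : I} {γ : List (Symbol Δ I)} {w : List Δ} :
    w ∈ den F (Symbol.nonterminal i :: γ) ↔ ∃ u ∈ F i, ∃ v ∈ den F γ, w = u ++ v := Iff.rfl

theorem mem_den_append {γ₁ γ₂ : List (Symbol Δ I)} {w : List Δ} :
    w ∈ den F (γ₁ ++ γ₂) ↔ ∃ u ∈ den F γ₁, ∃ v ∈ den F γ₂, w = u ++ v := by
  induction γ₁ generalizing w with
  | nil => simp
  | cons s γ₁ ih =>
    cases s with
    | terminal a =>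
      simp only [List.cons_append, mem_den_terminal, ih]
      constructor
      · rintro ⟨v, ⟨u, hu, v', hv', rfl⟩, rfl⟩
        exact ⟨a :: u, ⟨u, hu, rfl⟩, v', hv', rfl⟩
      · rintro ⟨u, ⟨u', hu', rfl⟩, v, hv, rfl⟩
        exact ⟨u' ++ v, ⟨u', hu', v, hv, rfl⟩, rfl⟩
    | nonterminal i =>
      simp only [List.cons_append, mem_den_nonterminal, ih]
      constructor
      · rintro ⟨u, hu, v, ⟨u', hu', v', hv', rfl⟩, rfl⟩
        exact ⟨u ++ u', ⟨u, hu, u', hu', rfl⟩, v', hv', by simp⟩
      · rintro ⟨u, ⟨u', hu', v', hv', rfl⟩, v, hv, rfl⟩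
        exact ⟨u', hu', v' ++ v, ⟨v', hv', v, hv, rfl⟩, by simp⟩

@[simp] theorem mem_den_tm {z w : List Δ} : w ∈ den F (tm z) ↔ w = z := by
  induction z generalizing w with
  | nil => simp
  | cons a z ih =>
    simp only [List.map_cons, mem_den_terminal, ih]
    constructor
    · rintro ⟨v, rfl, rfl⟩; rfl
    · rintro rfl; exact ⟨z, rfl, rfl⟩

theorem mem_den_single {i : I} {w : List Δ} : w ∈ den F [Symbol.nonterminal i] ↔ w ∈ F i := by
  simp

theorem den_mono {F' : I → Set (List Δ)} (h : ∀ i, F i ⊆ F' i) (γ : List (Symbol Δ I)) :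
    den F γ ⊆ den F' γ := by
  intro w hw
  induction γ generalizing w with
  | nil => exact hw
  | cons s γ ih =>
    cases s with
    | terminal a =>
      obtain ⟨v, hv, rfl⟩ := hw
      exact ⟨v, ih hv, rfl⟩
    | nonterminal i =>
      obtain ⟨u, hu, v, hv, rfl⟩ := hw
      exact ⟨u, h i hu, v, ih hv, rfl⟩

end den

/-- Soundness: an assignment of languages closed under the rules bounds the language. -/
theorem sound {F : g.NT → Set (List T)} (h : ∀ r ∈ g.rules, den F r.output ⊆ F r.input)
    {n : ℕ} {α β : List (Symbol T g.NT)} (hd : LD g n α β) : den F β ⊆ den F α := by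
  induction hd with
  | nil => exact subset_rfl
  | skip s _ ih =>
    cases s with
    | terminal a =>
      rintro w ⟨v, hv, rfl⟩
      exact ⟨v, ih hv, rfl⟩
    | nonterminal i =>
      rintro w ⟨u, hu, v, hv, rfl⟩
      exact ⟨u, hu, v, ih hv, rfl⟩
  | @rule r hr n1 m1 β₁ α0 β₂ h1 h2 ih1 ih2 =>
    intro w hw
    obtain ⟨u, hu, v, hv, rfl⟩ := mem_den_append.1 hw
    exact ⟨u, h r hr (ih1 hu), v, ih2 hv, rfl⟩

theorem language_subset {F : g.NT → Set (List T)}
    (h : ∀ r ∈ g.rules, den F r.output ⊆ F r.input) {w : List T} (hw : w ∈ g.language) :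
    w ∈ F g.initial := by
  obtain ⟨n, hn⟩ := LD.of_derives hw
  have := sound h hn (mem_den_tm.2 rfl)
  exact mem_den_single.1 this

theorem finite_map_fiber {α β : Type} (f : α → β) (h : ∀ b, {a | f a = b}.Finite) (m : List β) :
    {l : List α | l.map f = m}.Finite := by
  induction m with
  | nil =>
    refine (Set.finite_singleton []).subset ?_
    intro l hl
    simpa using hl
  | cons b m ih =>
    have : {l : List α | l.map f = b :: m} ⊆
        (fun p : α × List α => p.1 :: p.2) '' ({a | f a = b} ×ˢ {l | l.map f = m}) := by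
      intro l hl
      cases l with
      | nil => simp at hl
      | cons a l =>
        simp only [Set.mem_ofPred_eq, List.map_cons, List.cons.injEq] at hl
        exact ⟨(a, l), ⟨hl.1, hl.2⟩, rfl⟩
    exact (((h b).prod ih).image _).subset this

/-- symbol map -/
def smap {Δ I T N : Type} (f : Δ → T) (φ : I → N) : Symbol Δ I → Symbol T N
  | Symbol.terminal d => Symbol.terminal (f d)
  | Symbol.nonterminal i => Symbol.nonterminal (φ i)

@[simp] theorem smap_tm {Δ I T N : Type} (f : Δ → T) (φ : I → N) (w : List Δ) :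
    (tm w : List (Symbol Δ I)).map (smap f φ) = tm (w.map f) := by
  simp [tm, smap, Function.comp_def]

end Pool.Agent.GF
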