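import Mathlib

/-!
Definitions for grammar forms under strict interpretation (s-interpretation).
-/

namespace Pool.Agent.GF

/-- `SymInterp μT μN s' s`: the symbol `s'` of the interpreting grammar belongs to the image of the
symbol `s` of the grammar form under the substitution given by `μT` on terminals and `μN` on
nonterminals. -/
def SymInterp {Δ T N' N : Type} (μT : T → Set Δ) (μN : N → Set N') :
    Symbol Δ N' → Symbol T N → Prop
  | Symbol.terminal d, Symbol.terminal a => d ∈ μT a
  | Symbol.nonterminal X, Symbol.nonterminal A => X ∈ μN A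
  | Symbol.terminal _, Symbol.nonterminal _ => False
  | Symbol.nonterminal _, Symbol.terminal _ => False

/-- `IsSInterpretation G' G`: the context-free grammar `G'` (over the alphabet `Δ`) is an
s-interpretation of the grammar form `G` (over the alphabet `T`). -/
def IsSInterpretation {Δ T : Type} (G' : ContextFreeGrammar Δ) (G : ContextFreeGrammar T) : Prop :=
  ∃ (μT : T → Set Δ) (μN : G.NT → Set G'.NT),
    (∀ a, (μT a).Finite) ∧ (∀ A, (μN A).Finite) ∧
    (∀ a b, a ≠ b → Disjoint (μT a) (μT b)) ∧
    (∀ A B, A ≠ B → Disjoint (μN A) (μN B)) ∧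
    (∀ r' ∈ G'.rules, ∃ r ∈ G.rules, r'.input ∈ μN r.input ∧
      List.Forall₂ (SymInterp μT μN) r'.output r.output) ∧
    G'.initial ∈ μN G.initial

/-- Two languages are regarded as equal if they differ at most by the empty word. -/
def EqModEmpty {Δ : Type} (L M : Language Δ) : Prop :=
  ∀ w : List Δ, w ≠ [] → (w ∈ L ↔ w ∈ M)

/-- The grammar form `G` is context-free-s-complete: the family of languages of its
s-interpretations equals the family of context-free languages (over finite alphabets), where
languages differing only by the empty word are identified. -/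
def CFSComplete {T : Type} (G : ContextFreeGrammar T) : Prop :=
  (∀ (Δ : Type) [Finite Δ] (L : Language Δ), L.IsContextFree →
    ∃ G' : ContextFreeGrammar Δ, IsSInterpretation G' G ∧ EqModEmpty L G'.language) ∧
  (∀ (Δ : Type) [Finite Δ] (G' : ContextFreeGrammar Δ), IsSInterpretation G' G →
    ∃ L : Language Δ, L.IsContextFree ∧ EqModEmpty G'.language L)

/-- The word `c ^ n`, as a sentential form of `G`. -/
def pow {T : Type} (G : ContextFreeGrammar T) (c : T) (n : ℕ) : List (Symbol T G.NT) :=
  List.replicate n (Symbol.terminal c)

/-- The nonterminal `A` is expansive over the one-letter alphabet `{c}`: `A` derives a sentential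
form `c^i A c^j A c^k` and `A` derives some nonempty word `c^l`. -/
def ExpansiveOn {T : Type} (G : ContextFreeGrammar T) (c : T) (A : G.NT) : Prop :=
  (∃ i j k : ℕ, G.Derives [Symbol.nonterminal A]
    (pow G c i ++ [Symbol.nonterminal A] ++ pow G c j ++ [Symbol.nonterminal A] ++ pow G c k)) ∧
  ∃ l : ℕ, 1 ≤ l ∧ G.Derives [Symbol.nonterminal A] (pow G c l)

end Pool.Agent.GF
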