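import Mathlib
import Pool.Agent.Hhelper70.GF.Defs
import Pool.Agent.Hhelper70.GF.Basic

namespace Pool.Agent.GF

open ContextFreeGrammar

variable {T Δ I : Type}

/-- nonterminals of the simulating grammar: main nonterminals and auxiliary ones -/
abbrev MNT (Δ I N : Type) (B : ℕ) : Type :=
  I ⊕ ({γ : List (Symbol Δ I) // γ.length ≤ B} × N)

def mlab {N : Type} {B : ℕ} (lab : I → N) : MNT Δ I N B → N
  | Sum.inl i => lab i
  | Sum.inr p => p.2

def mF {N : Type} {B : ℕ} (F : I → Set (List Δ)) : MNT Δ I N B → Set (List Δ)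
  | Sum.inl i => F i
  | Sum.inr p => den F p.1.1

theorem finite_bounded_lists (α : Type) [Finite α] (B : ℕ) :
    Finite {γ : List α // γ.length ≤ B} := by
  have : {γ : List α | γ.length ≤ B}.Finite := List.finite_length_le α B
  exact this

instance [Finite Δ] [Finite I] : Finite (Symbol Δ I) := by
  let f : Δ ⊕ I → Symbol Δ I := fun x => match x with
    | Sum.inl d => Symbol.terminal d
    | Sum.inr i => Symbol.nonterminal i
  refine Finite.of_surjective f ?_
  intro s
  cases s with
  | terminal d => exact ⟨Sum.inl d, rfl⟩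
  | nonterminal i => exact ⟨Sum.inr i, rfl⟩

theorem finite_mlab_fiber {N : Type} [Finite Δ] [Finite I] {B : ℕ} (lab : I → N) (A : N) :
    {x : MNT Δ I N B | mlab lab x = A}.Finite := by
  have := finite_bounded_lists (Symbol Δ I) B
  have : {x : MNT Δ I N B | mlab lab x = A} ⊆
      Set.range (fun y : I ⊕ {γ : List (Symbol Δ I) // γ.length ≤ B} =>
        (match y with
          | Sum.inl i => Sum.inl i
          | Sum.inr γ => Sum.inr (γ, A) : MNT Δ I N B)) := by
    intro x hx
    cases x with
    | inl i => exact ⟨Sum.inl i, rfl⟩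
    | inr p =>
      refine ⟨Sum.inr p.1, ?_⟩
      have : p.2 = A := hx
      subst this
      rfl
  exact (Set.finite_range _).subset this

theorem finite_smap_fiber {N I' : Type} [Finite Δ] (c : T) (φ : I' → N)
    (h : ∀ A, {x | φ x = A}.Finite) (s : Symbol T N) :
    {s' : Symbol Δ I' | smap (fun _ => c) φ s' = s}.Finite := by
  have : {s' : Symbol Δ I' | smap (fun _ => c) φ s' = s} ⊆
      (Set.range (Symbol.terminal : Δ → Symbol Δ I')) ∪
      (match s with
        | Symbol.terminal _ => ∅
        | Symbol.nonterminal A => Symbol.nonterminal '' {x | φ x = A}) := by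
    intro s' hs'
    cases s' with
    | terminal d => exact Or.inl ⟨d, rfl⟩
    | nonterminal x =>
      right
      cases s with
      | terminal a => simp [smap] at hs'
      | nonterminal A =>
        refine ⟨x, ?_, rfl⟩
        simpa [smap] using hs'
  refine Set.Finite.subset (Set.Finite.union (Set.finite_range _) ?_) this
  cases s with
  | terminal a => exact Set.finite_empty
  | nonterminal A => exact (h A).image _

/-- the rules of the simulating grammar -/
def mrules (g : ContextFreeGrammar T) (c : T) (lab : I → g.NT) (F : I → Set (List Δ)) (B : ℕ) :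
    Set (ContextFreeRule Δ (MNT Δ I g.NT B)) :=
  {r' | ∃ r ∈ g.rules, mlab lab r'.input = r.input ∧
    r'.output.map (smap (fun _ => c) (mlab lab)) = r.output ∧
    den (mF F) r'.output ⊆ mF F r'.input}

theorem finite_mrules [Finite Δ] [Finite I] (g : ContextFreeGrammar T) (c : T) (lab : I → g.NT)
    (F : I → Set (List Δ)) (B : ℕ) : (mrules g c lab F B).Finite := by
  have h1 : mrules g c lab F B ⊆ ⋃ r ∈ g.rules,
      (fun p : (MNT Δ I g.NT B) × List (Symbol Δ (MNT Δ I g.NT B)) =>
        (⟨p.1, p.2⟩ : ContextFreeRule Δ (MNT Δ I g.NT B))) ''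
        ({x | mlab lab x = r.input} ×ˢ
          {l | l.map (smap (fun _ => c) (mlab lab)) = r.output}) := by
    rintro r' ⟨r, hr, h1, h2, _⟩
    simp only [Set.mem_iUnion]
    exact ⟨r, hr, (r'.input, r'.output), ⟨h1, h2⟩, rfl⟩
  refine Set.Finite.subset ?_ h1
  refine Set.Finite.biUnion g.rules.finite_toSet ?_
  intro r _
  refine Set.Finite.image _ (Set.Finite.prod (finite_mlab_fiber lab r.input) ?_)
  exact finite_map_fiber _ (finite_smap_fiber c _ (finite_mlab_fiber lab)) _

/-- the simulating grammar -/
noncomputable def mgram [Finite Δ] [Finite I] (g : ContextFreeGrammar T) (c : T) (lab : I → g.NT)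
    (F : I → Set (List Δ)) (B : ℕ) (i0 : I) : ContextFreeGrammar Δ where
  NT := MNT Δ I g.NT B
  initial := Sum.inl i0
  rules := (finite_mrules g c lab F B).toFinset

section
variable [Finite Δ] [Finite I] {g : ContextFreeGrammar T} {c : T} {lab : I → g.NT}
  {F : I → Set (List Δ)} {B : ℕ} {i0 : I}

theorem mem_mgram_rules {r' : ContextFreeRule Δ (MNT Δ I g.NT B)} :
    r' ∈ (mgram g c lab F B i0).rules ↔ r' ∈ mrules g c lab F B :=
  Set.Finite.mem_toFinset _

theorem forall2_smap {N N' : Type} (φ : N' → N) (l : List (Symbol Δ N')) :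
    List.Forall₂ (SymInterp (fun a : T => {d : Δ | a = c}) (fun A => {x | φ x = A})) l
      (l.map (smap (fun _ => c) φ)) := by
  induction l with
  | nil => exact List.Forall₂.nil
  | cons s l ih =>
    refine List.Forall₂.cons ?_ ih
    cases s with
    | terminal d => exact rfl
    | nonterminal x => exact rfl

theorem mgram_interp (h0 : lab i0 = g.initial) :
    IsSInterpretation (mgram g c lab F B i0) g := by
  refine ⟨fun a => {d : Δ | a = c}, fun A => {x : MNT Δ I g.NT B | mlab lab x = A},
    ?_, ?_, ?_, ?_, ?_, ?_⟩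
  · intro a; exact Set.toFinite _
  · intro A; exact finite_mlab_fiber lab A
  · intro a b hab
    rw [Set.disjoint_left]
    intro d (hd : a = c) (hd' : b = c)
    exact hab (hd.trans hd'.symm)
  · intro a b hab
    rw [Set.disjoint_left]
    intro d (hd : mlab lab d = a) (hd' : mlab lab d = b)
    exact hab (hd.symm.trans hd')
  · intro r' hr'
    obtain ⟨r, hr, h1, h2, _⟩ := mem_mgram_rules.1 hr'
    refine ⟨r, hr, h1, ?_⟩
    rw [← h2]
    exact forall2_smap _ _
  · exact h0

/-- embedding of sentential forms -/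
def emb {Δ I N : Type} {B : ℕ} : Symbol Δ I → Symbol Δ (MNT Δ I N B)
  | Symbol.terminal d => Symbol.terminal d
  | Symbol.nonterminal i => Symbol.nonterminal (Sum.inl i)

/-- lifting lemma -/
theorem lift_aux {n : ℕ} {α β : List (Symbol T g.NT)} (h : LD g n α β) :
    ∀ γ : List (Symbol Δ I), γ.map (smap (fun _ => c) lab) = β → γ.length ≤ B →
    ∃ y : List (Symbol Δ (MNT Δ I g.NT B)), y.map (smap (fun _ => c) (mlab lab)) = α ∧
      den (mF F) y = den F γ ∧
      (mgram g c lab F B i0).Derives y (γ.map emb) := by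
  induction h with
  | nil =>
    intro γ hγ _
    have : γ = [] := by simpa using hγ
    subst this
    exact ⟨[], rfl, by ext w; simp, Derives.refl _⟩
  | @skip s n α β h ih =>
    intro γ hγ hl
    cases γ with
    | nil => simp at hγ
    | cons t γ =>
      simp only [List.map_cons, List.cons.injEq] at hγ
      obtain ⟨rfl, h2⟩ := hγ
      obtain ⟨y, hy1, hy2, hy3⟩ := ih γ h2 (by simp at hl; omega)
      refine ⟨emb t :: y, ?_, ?_, hy3.append_left [emb t]⟩
      · simp only [List.map_cons, hy1, List.cons.injEq, and_true]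
        cases t <;> rfl
      · cases t with
        | terminal d => ext w; simp only [emb, mem_den_terminal, hy2]
        | nonterminal i => ext w; simp only [emb, mem_den_nonterminal, hy2]; rfl
  | @rule r hr n1 m1 β₁ α0 β₂ h1 h2 ih1 ih2 =>
    intro γ hγ hl
    obtain ⟨γ₁, γ₂, rfl, e1, e2⟩ := List.map_eq_append_iff.1 hγ
    simp only [List.length_append] at hl
    obtain ⟨y1, hy11, hy12, hy13⟩ := ih1 γ₁ e1 (by omega)
    obtain ⟨y2, hy21, hy22, hy23⟩ := ih2 γ₂ e2 (by omega)
    let X : MNT Δ I g.NT B := Sum.inr (⟨γ₁, by omega⟩, r.input)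
    refine ⟨Symbol.nonterminal X :: y2, ?_, ?_, ?_⟩
    · simp only [List.map_cons, hy21]; rfl
    · ext w
      simp only [mem_den_nonterminal, hy22, mem_den_append]
      rfl
    · have hrule : (⟨X, y1⟩ : ContextFreeRule Δ (MNT Δ I g.NT B)) ∈
          (mgram g c lab F B i0).rules := by
        rw [mem_mgram_rules]
        exact ⟨r, hr, rfl, hy11, hy12.le⟩
      have h5 := derives_append (derives_rule hrule hy13) hy23
      have h6 : (γ₁ ++ γ₂).map (emb : Symbol Δ I → Symbol Δ (MNT Δ I g.NT B)) =
        γ₁.map emb ++ γ₂.map emb := List.map_append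
      exact h6 ▸ h5

theorem lift_top {i : I} {γ : List (Symbol Δ I)}
    (hd : g.Derives [Symbol.nonterminal (lab i)] (γ.map (smap (fun _ => c) lab)))
    (hl : γ.length ≤ B) (hs : den F γ ⊆ F i) :
    (∃ j, γ = [Symbol.nonterminal j]) ∨
    (mgram g c lab F B i0).Derives [Symbol.nonterminal (Sum.inl i)] (γ.map emb) := by
  obtain ⟨n, hn⟩ := LD.of_derives hd
  generalize hα : [Symbol.nonterminal (lab i)] = α at hn
  generalize hβ : γ.map (smap (fun _ => c) lab) = β at hn
  cases hn with
  | nil => simp at hα
  | @skip s n α β h =>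
    left
    simp only [List.cons.injEq] at hα
    obtain ⟨rfl, rfl⟩ := hα
    cases h with
    | nil =>
      cases γ with
      | nil => simp at hβ
      | cons t γ =>
        simp only [List.map_cons, List.cons.injEq, List.map_eq_nil_iff] at hβ
        obtain ⟨h1, rfl⟩ := hβ
        cases t with
        | terminal d => simp [smap] at h1
        | nonterminal j => exact ⟨j, rfl⟩
  | @rule r hr n1 m1 β₁ α0 β₂ h1 h2 =>
    right
    simp only [List.cons.injEq, Symbol.nonterminal.injEq] at hα
    obtain ⟨h3, rfl⟩ := hα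
    cases h2 with
    | nil =>
      simp only [List.append_nil] at hβ
      obtain ⟨y1, hy11, hy12, hy13⟩ := lift_aux (F := F) (i0 := i0) h1 γ hβ hl
      have hrule : (⟨Sum.inl i, y1⟩ : ContextFreeRule Δ (MNT Δ I g.NT B)) ∈
          (mgram g c lab F B i0).rules := by
        rw [mem_mgram_rules]
        exact ⟨r, hr, h3, hy11, hy12 ▸ hs⟩
      exact derives_rule hrule hy13

theorem derives_of_den {g' : ContextFreeGrammar Δ} {P : I → List Δ → Prop} {e : I → g'.NT}
    (hP : ∀ i w, P i w → g'.Derives [Symbol.nonterminal (e i)] (tm w))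
    (γ : List (Symbol Δ I)) (w : List Δ) (hw : w ∈ den (fun j => {u | P j u}) γ) :
    g'.Derives (γ.map (smap id e)) (tm w) := by
  induction γ generalizing w with
  | nil =>
    have : w = [] := hw
    subst this
    exact Derives.refl _
  | cons s γ ih =>
    cases s with
    | terminal a =>
      obtain ⟨v, hv, rfl⟩ := hw
      exact (ih v hv).append_left [Symbol.terminal a]
    | nonterminal i =>
      obtain ⟨u, hu, v, hv, rfl⟩ := hw
      have h5 := derives_append (hP i u hu) (ih v hv)
      have h6 : (tm (u ++ v) : List (Symbol Δ g'.NT)) = tm u ++ tm v := List.map_append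
      exact h6 ▸ h5

theorem emb_eq_smap (γ : List (Symbol Δ I)) :
    γ.map (emb : Symbol Δ I → Symbol Δ (MNT Δ I g.NT B)) = γ.map (smap id Sum.inl) := by
  apply List.map_congr_left
  intro s _
  cases s <;> rfl

/-- **Simulation theorem.** -/
theorem simul_thm (g : ContextFreeGrammar T) (c : T) (lab : I → g.NT)
    (F : I → Set (List Δ)) (B : ℕ) (i0 : I) (h0 : lab i0 = g.initial)
    (H : ∀ i, ∀ w ∈ F i, ∃ γ : List (Symbol Δ I), γ.length ≤ B ∧
      g.Derives [Symbol.nonterminal (lab i)] (γ.map (smap (fun _ => c) lab)) ∧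
      den F γ ⊆ F i ∧ w ∈ den (fun j => {u | u ∈ F j ∧ u.length < w.length}) γ) :
    ∃ g' : ContextFreeGrammar Δ, IsSInterpretation g' g ∧ ∀ w, w ∈ g'.language ↔ w ∈ F i0 := by
  refine ⟨mgram g c lab F B i0, mgram_interp h0, ?_⟩
  intro w
  constructor
  · intro hw
    have := language_subset (g := mgram g c lab F B i0) (F := mF F) ?_ hw
    · exact this
    · intro r hr
      obtain ⟨_, _, _, _, h⟩ := mem_mgram_rules.1 hr
      exact h
  · intro hw
    have key : ∀ n, ∀ i, ∀ w ∈ F i, w.length < n →
        (mgram g c lab F B i0).Derives [Symbol.nonterminal (Sum.inl i)] (tm w) := by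
      intro n
      induction n with
      | zero => intro i w _ h; omega
      | succ n ih =>
        intro i w hw hn
        obtain ⟨γ, h1, h2, h3, h4⟩ := H i w hw
        rcases lift_top (F := F) (i0 := i0) h2 h1 h3 with ⟨j, rfl⟩ | h5
        · exfalso
          obtain ⟨u, hu, v, hv, rfl⟩ := h4
          have : v = [] := hv
          subst this
          have := hu.2
          simp at this
        · refine h5.trans ?_
          have h6 := derives_of_den (g' := mgram g c lab F B i0) (e := Sum.inl)
            (P := fun j u => u ∈ F j ∧ u.length < w.length) ?_ γ w h4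
          · exact (emb_eq_smap (g := g) (B := B) γ).symm ▸ h6
          · rintro j u ⟨hu1, hu2⟩
            exact ih j u hu1 (by omega)
    exact key (w.length + 1) i0 w hw (by omega)

end

/-- A finite family of languages with bounded semantic decompositions is context-free. -/
theorem cf_of_family [Finite Δ] [Finite I] (F : I → Set (List Δ)) (B : ℕ) (i0 : I)
    (H : ∀ i, ∀ w ∈ F i, ∃ γ : List (Symbol Δ I), γ.length ≤ B ∧
      den F γ ⊆ F i ∧ w ∈ den (fun j => {u | u ∈ F j ∧ u.length < w.length}) γ) :
    ∃ g' : ContextFreeGrammar Δ, ∀ w, w ∈ g'.language ↔ w ∈ F i0 := by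
  classical
  -- the universal form with one nonterminal and one terminal
  let S : Set (ContextFreeRule Unit Unit) := {r | r.output.length ≤ B}
  have hS : S.Finite := by
    have h1 : {γ : List (Symbol Unit Unit) | γ.length ≤ B}.Finite := List.finite_length_le _ B
    refine (h1.image (fun l => (⟨(), l⟩ : ContextFreeRule Unit Unit))).subset ?_
    intro r hr
    exact ⟨r.output, hr, rfl⟩
  let g : ContextFreeGrammar Unit := ⟨Unit, (), hS.toFinset⟩
  obtain ⟨g', _, h⟩ := simul_thm g () (fun _ => ()) F B i0 rfl (by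
    intro i w hw
    obtain ⟨γ, h1, h2, h3⟩ := H i w hw
    refine ⟨γ, h1, ?_, h2, h3⟩
    have hr : (⟨(), γ.map (smap (fun _ => ()) (fun _ => ()))⟩ : ContextFreeRule Unit g.NT)
        ∈ g.rules := by
      change _ ∈ hS.toFinset
      rw [Set.Finite.mem_toFinset]
      change (List.map _ γ).length ≤ B
      rw [List.length_map]
      exact h1
    exact derives_rule hr (Derives.refl _))
  exact ⟨g', h⟩

end Pool.Agent.GF
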