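import Mathlib
import Pool.Agent.Hhelper70.GF.Defs
import Pool.Agent.Hhelper70.GF.Simul

namespace Pool.Agent.GF

open ContextFreeGrammar

variable {Δ : Type}

/-- Dyck words -/
inductive Dy (x y : Δ) : List Δ → Prop
  | nil : Dy x y []
  | node {w₁ w₂ : List Δ} (h₁ : Dy x y w₁) (h₂ : Dy x y w₂) : Dy x y (x :: (w₁ ++ y :: w₂))

def EE (x y : Δ) : Set (List Δ) := {w | ∃ d e, Dy x y d ∧ w = d ++ List.replicate e x}

def L0 (Δ : Type) [LinearOrder Δ] : Set (List Δ) := {w | ∃ x y : Δ, x < y ∧ w ∈ EE x y}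

theorem Dy.append {x y : Δ} {w₁ w₂ : List Δ} (h₁ : Dy x y w₁) (h₂ : Dy x y w₂) :
    Dy x y (w₁ ++ w₂) := by
  induction h₁ with
  | nil => simpa using h₂
  | node a b _ ih2 =>
    have := Dy.node a ih2
    simpa using this

theorem Dy.pow {x y : Δ} {w : List Δ} (h : Dy x y w) (n : ℕ) :
    Dy x y (List.replicate n x ++ (w ++ List.replicate n y)) := by
  induction n generalizing w with
  | zero => simpa using h
  | succ n ih =>
    have h1 : Dy x y (x :: (w ++ y :: [])) := Dy.node h Dy.nil
    have h2 := ih h1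
    have e : List.replicate (n + 1) x ++ (w ++ List.replicate (n + 1) y) =
        List.replicate n x ++ (x :: (w ++ y :: []) ++ List.replicate n y) := by
      rw [List.replicate_succ' (n := n) (a := x), List.replicate_succ (n := n) (a := y)]
      simp
    rw [e]
    exact h2

theorem Dy.letters {x y : Δ} {w : List Δ} (h : Dy x y w) : ∀ a ∈ w, a = x ∨ a = y := by
  induction h with
  | nil => simp
  | node _ _ ih1 ih2 =>
    intro a ha
    simp only [List.mem_cons, List.mem_append] at ha
    rcases ha with rfl | ha | rfl | ha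
    · exact Or.inl rfl
    · exact ih1 a ha
    · exact Or.inr rfl
    · exact ih2 a ha

theorem Dy.nonempty_mem {x y : Δ} {w : List Δ} (h : Dy x y w) (hne : w ≠ []) : x ∈ w ∧ y ∈ w := by
  cases h with
  | nil => exact absurd rfl hne
  | node _ _ => simp

variable [DecidableEq Δ]

theorem Dy.count_eq {x y : Δ} (hxy : x ≠ y) {w : List Δ} (h : Dy x y w) :
    w.count x = w.count y := by
  induction h with
  | nil => rfl
  | node _ _ ih1 ih2 =>
    simp only [List.count_cons, List.count_append, ih1, ih2]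
    simp [hxy, hxy.symm]
    omega

theorem Dy.pre {x y : Δ} (hxy : x ≠ y) {w : List Δ} (h : Dy x y w) :
    ∀ P S, w = P ++ S → P.count y ≤ P.count x := by
  induction h with
  | nil =>
    intro P S h
    obtain ⟨rfl, rfl⟩ := List.append_eq_nil_iff.1 h.symm
    simp
  | @node w₁ w₂ h1 h2 ih1 ih2 =>
    intro P S h
    cases P with
    | nil => simp
    | cons a P =>
      simp only [List.cons_append, List.cons.injEq] at h
      obtain ⟨rfl, h⟩ := h
      rcases List.append_eq_append_iff.1 h with ⟨c, rfl, h3⟩ | ⟨c, rfl, h3⟩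
      · -- `w₁` is a prefix of `P`
        have hc := h1.count_eq hxy
        cases c with
        | nil =>
          simp only [List.append_nil, List.count_cons, hc]
          simp [hxy]
        | cons b c =>
          simp only [List.cons_append, List.cons.injEq] at h3
          obtain ⟨rfl, h3⟩ := h3
          have := ih2 c S h3
          simp only [List.count_cons, List.count_append, hc]
          simp [hxy, hxy.symm]
          omega
      · have := ih1 P c rfl
        simp only [List.count_cons]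
        simp [hxy]
        omega

theorem Dy.suf {x y : Δ} (hxy : x ≠ y) {w : List Δ} (h : Dy x y w) :
    ∀ P S, w = P ++ S → S.count x ≤ S.count y := by
  intro P S hPS
  have h1 := h.pre hxy P S hPS
  have h2 := h.count_eq hxy
  rw [hPS] at h2
  simp only [List.count_append] at h2
  omega

theorem F1 {x y : Δ} (hxy : x ≠ y) {w : List Δ} (h : w ∈ EE x y) :
    ∀ P S, w = P ++ S → P.count y ≤ P.count x := by
  obtain ⟨d, e, hd, rfl⟩ := h
  intro P S hPS
  rcases List.append_eq_append_iff.1 hPS with ⟨c, rfl, h3⟩ | ⟨c, rfl, h3⟩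
  · have h4 : c.count y = 0 := by
      rw [List.count_eq_zero]
      intro hy
      have : y ∈ List.replicate e x := by rw [h3]; exact List.mem_append_left _ hy
      exact hxy (List.eq_of_mem_replicate this).symm
    have := hd.count_eq hxy
    simp only [List.count_append]
    omega
  · exact hd.pre hxy P c rfl

theorem F2 {x y : Δ} (hxy : x ≠ y) {w : List Δ} (h : w ∈ EE x y) :
    ∀ P Q B, w = P ++ (Q ++ B) → y ∈ B → Q.count x ≤ Q.count y + B.length := by
  obtain ⟨d, e, hd, rfl⟩ := h
  intro P Q B hPS hy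
  rw [← List.append_assoc] at hPS
  rcases List.append_eq_append_iff.1 hPS with ⟨c, h1, h3⟩ | ⟨c, rfl, h3⟩
  · exfalso
    have : y ∈ List.replicate e x := by rw [h3]; exact List.mem_append_right _ hy
    exact hxy (List.eq_of_mem_replicate this).symm
  · have h4 := hd.suf hxy P (Q ++ c) (by simp)
    subst h3
    have h5 : c.count y ≤ c.length := List.count_le_length
    simp only [List.count_append] at h4
    simp only [List.length_append]
    omega

theorem L0_EE {Δ : Type} [LinearOrder Δ] {x y : Δ} (hxy : x < y) {w : List Δ} (h : w ∈ L0 Δ)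
    (hl : ∀ a ∈ w, a = x ∨ a = y) (hx : x ∈ w) : w ∈ EE x y := by
  obtain ⟨x', y', hxy', d, e, hd, rfl⟩ := h
  by_cases hd0 : d = []
  · subst hd0
    simp only [List.nil_append] at hx ⊢
    have := List.eq_of_mem_replicate hx
    subst this
    exact ⟨[], e, Dy.nil, by simp⟩
  · obtain ⟨h1, h2⟩ := hd.nonempty_mem hd0
    rcases hl x' (List.mem_append_left _ h1) with rfl | rfl
    · rcases hl y' (List.mem_append_left _ h2) with rfl | rfl
      · exact absurd hxy' (lt_irrefl _)
      · exact ⟨d, e, hd, rfl⟩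
    · rcases hl y' (List.mem_append_left _ h2) with rfl | rfl
      · exact absurd (hxy.trans hxy') (lt_irrefl _)
      · exact absurd hxy' (lt_irrefl _)

omit [DecidableEq Δ] in
theorem EE_dec {I : Type} (FI : I → Set (List Δ)) (x y : Δ) (iD iE iP : I)
    (hD : FI iD = {w | Dy x y w}) (hE : FI iE = EE x y)
    (hP : FI iP = {w | ∃ e, w = List.replicate e x}) (w : List Δ) (hw : w ∈ EE x y) :
    ∃ γ : List (Symbol Δ I), γ.length ≤ 4 ∧
      den FI γ ⊆ EE x y ∧ w ∈ den (fun j => {u | u ∈ FI j ∧ u.length < w.length}) γ := by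
  obtain ⟨d, e, hd, rfl⟩ := hw
  cases hd with
  | nil =>
    cases e with
    | zero =>
      refine ⟨[], by simp, ?_, ?_⟩
      · intro v hv
        have : v = [] := hv
        subst this
        exact ⟨[], 0, Dy.nil, rfl⟩
      · simp
    | succ e =>
      refine ⟨[Symbol.terminal x, Symbol.nonterminal iP], by simp, ?_, ?_⟩
      · rintro v ⟨v', hv', rfl⟩
        rw [mem_den_single, hP] at hv'
        obtain ⟨e', rfl⟩ := hv'
        exact ⟨[], e' + 1, Dy.nil, by simp [List.replicate_succ]⟩
      · refine ⟨List.replicate e x, ?_, by simp [List.replicate_succ]⟩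
        rw [mem_den_single]
        refine ⟨?_, ?_⟩
        · rw [hP]; exact ⟨e, rfl⟩
        · simp
  | @node w1 w2 h1 h2 =>
    refine ⟨[Symbol.terminal x, Symbol.nonterminal iD, Symbol.terminal y, Symbol.nonterminal iE],
      by simp, ?_, ?_⟩
    · rintro v ⟨_, ⟨a, ha, _, ⟨_, ⟨b, hb, _, rfl, rfl⟩, rfl⟩, rfl⟩, rfl⟩
      rw [hD] at ha
      rw [hE] at hb
      obtain ⟨d', e', hd', rfl⟩ := hb
      exact ⟨x :: (a ++ y :: d'), e', Dy.node ha hd', by simp⟩
    · refine ⟨w1 ++ y :: (w2 ++ List.replicate e x), ⟨w1, ⟨?_, ?_⟩, y :: (w2 ++ List.replicate e x),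
        ⟨w2 ++ List.replicate e x, ?_, rfl⟩, rfl⟩, by simp⟩
      · rw [hD]; exact h1
      · simp
      · rw [mem_den_single]
        refine ⟨?_, ?_⟩
        · rw [hE]; exact ⟨w2, e, h2, rfl⟩
        · simp; omega

omit [DecidableEq Δ] in
theorem PP_dec {I : Type} (FI : I → Set (List Δ)) (x : Δ) (iP : I)
    (hP : FI iP = {w | ∃ e, w = List.replicate e x}) (w : List Δ)
    (hw : ∃ e, w = List.replicate e x) :
    ∃ γ : List (Symbol Δ I), γ.length ≤ 4 ∧
      den FI γ ⊆ {w | ∃ e, w = List.replicate e x} ∧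
      w ∈ den (fun j => {u | u ∈ FI j ∧ u.length < w.length}) γ := by
  obtain ⟨e, rfl⟩ := hw
  cases e with
  | zero =>
    refine ⟨[], by simp, ?_, ?_⟩
    · intro v hv
      have : v = [] := hv
      subst this
      exact ⟨0, rfl⟩
    · simp
  | succ e =>
    refine ⟨[Symbol.terminal x, Symbol.nonterminal iP], by simp, ?_, ?_⟩
    · rintro v ⟨v', hv', rfl⟩
      rw [mem_den_single, hP] at hv'
      obtain ⟨e', rfl⟩ := hv'
      exact ⟨e' + 1, by simp [List.replicate_succ]⟩
    · refine ⟨List.replicate e x, ?_, by simp [List.replicate_succ]⟩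
      rw [mem_den_single]
      refine ⟨?_, ?_⟩
      · rw [hP]; exact ⟨e, rfl⟩
      · simp

omit [DecidableEq Δ] in
theorem DD_dec {I : Type} (FI : I → Set (List Δ)) (x y : Δ) (iD : I)
    (hD : FI iD = {w | Dy x y w}) (w : List Δ) (hw : Dy x y w) :
    ∃ γ : List (Symbol Δ I), γ.length ≤ 4 ∧
      den FI γ ⊆ {w | Dy x y w} ∧
      w ∈ den (fun j => {u | u ∈ FI j ∧ u.length < w.length}) γ := by
  cases hw with
  | nil =>
    refine ⟨[], by simp, ?_, ?_⟩
    · intro v hv
      have : v = [] := hv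
      subst this
      exact Dy.nil
    · simp
  | @node w1 w2 h1 h2 =>
    refine ⟨[Symbol.terminal x, Symbol.nonterminal iD, Symbol.terminal y, Symbol.nonterminal iD],
      by simp, ?_, ?_⟩
    · rintro v ⟨_, ⟨a, ha, _, ⟨_, ⟨b, hb, _, rfl, rfl⟩, rfl⟩, rfl⟩, rfl⟩
      rw [hD] at ha hb
      rw [List.append_nil]
      exact Dy.node ha hb
    · refine ⟨w1 ++ y :: w2, ⟨w1, ⟨?_, ?_⟩, y :: w2, ⟨w2, ?_, rfl⟩, rfl⟩, rfl⟩
      · rw [hD]; exact h1
      · simp
      · rw [mem_den_single]
        refine ⟨?_, ?_⟩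
        · rw [hD]; exact h2
        · simp; omega

theorem L0_cf (Δ : Type) [LinearOrder Δ] [Finite Δ] :
    ∃ g : ContextFreeGrammar Δ, ∀ w, w ∈ g.language ↔ w ∈ L0 Δ := by
  let FI : Option (Fin 3 × Δ × Δ) → Set (List Δ) := fun i => match i with
    | none => L0 Δ
    | some (⟨0, _⟩, x, y) => {w | Dy x y w}
    | some (⟨1, _⟩, x, y) => EE x y
    | some (⟨2, _⟩, x, _) => {w | ∃ e, w = List.replicate e x}
  refine cf_of_family FI 4 none ?_
  intro i w hw
  match i, hw with
  | none, hw =>
    obtain ⟨x, y, hxy, hw⟩ := hw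
    obtain ⟨γ, h1, h2, h3⟩ := EE_dec FI x y (some (0, x, y)) (some (1, x, y)) (some (2, x, y))
      rfl rfl rfl w hw
    exact ⟨γ, h1, fun v hv => ⟨x, y, hxy, h2 hv⟩, h3⟩
  | some (⟨0, _⟩, x, y), hw => exact DD_dec FI x y (some (0, x, y)) rfl w hw
  | some (⟨1, _⟩, x, y), hw =>
    exact EE_dec FI x y (some (0, x, y)) (some (1, x, y)) (some (2, x, y)) rfl rfl rfl w hw
  | some (⟨2, _⟩, x, y), hw => exact PP_dec FI x (some (2, x, y)) rfl w hw

/-- the test words -/
def fw (x y : Δ) (c0 : ℕ) : ℕ → List Δ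
  | 0 => [x, y]
  | k + 1 => (List.replicate c0 x ++ (fw x y c0 k ++ List.replicate c0 y)) ++
      (List.replicate c0 y ++ (List.replicate c0 x ++
        (List.replicate c0 x ++ (fw x y c0 k ++ List.replicate c0 y))))

def inw (x y : Δ) (c0 k : ℕ) : List Δ :=
  List.replicate c0 x ++ (fw x y c0 k ++ List.replicate c0 y)

omit [DecidableEq Δ] in
theorem fw_succ (x y : Δ) (c0 k : ℕ) : fw x y c0 (k + 1) = inw x y c0 k ++
    (List.replicate c0 y ++ (List.replicate c0 x ++ inw x y c0 k)) := rfl

omit [DecidableEq Δ] in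
theorem Dy_inw (x y : Δ) (c0 k : ℕ) : Dy x y (inw x y c0 k) := by
  induction k with
  | zero =>
    have h : Dy x y (x :: ([] ++ y :: [])) := Dy.node Dy.nil Dy.nil
    exact h.pow c0
  | succ k ih =>
    have h1 := ih.pow c0
    have h2 := h1.append h1
    have e : inw x y c0 (k + 1) = List.replicate c0 x ++ (inw x y c0 k ++ List.replicate c0 y) ++
        (List.replicate c0 x ++ (inw x y c0 k ++ List.replicate c0 y)) := by
      conv_lhs => rw [inw, fw_succ]
      simp only [List.append_assoc]
    rw [e]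
    exact h2

omit [DecidableEq Δ] in
theorem two_le_inw (x y : Δ) (c0 k : ℕ) : 2 ≤ (inw x y c0 k).length := by
  have h : ∀ k, 2 ≤ (fw x y c0 k).length := by
    intro k
    induction k with
    | zero => simp [fw]
    | succ k ih =>
      simp only [fw, List.length_append]
      omega
  have := h k
  simp only [inw, List.length_append]
  omega

end Pool.Agent.GF
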