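import Mathlib
import Pool.Agent.Hhelper70.GF.Defs
import Pool.Agent.Hhelper70.GF.Dyck

namespace Pool.Agent.GF

open ContextFreeGrammar

variable {Δ : Type} {g : ContextFreeGrammar Δ}

/-- single-nonterminal inversion -/
theorem LD.inv_nt {n : ℕ} {A : g.NT} {Y : List Δ} (h : LD g n [Symbol.nonterminal A] (tm Y)) :
    ∃ r ∈ g.rules, r.input = A ∧ ∃ m, m < n ∧ LD g m r.output (tm Y) := by
  generalize hα : [Symbol.nonterminal A] = α at h
  generalize hβ : (tm Y : List (Symbol Δ g.NT)) = β at h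
  cases h with
  | nil => simp at hα
  | skip s h =>
    exfalso
    simp only [List.cons.injEq] at hα
    obtain ⟨rfl, rfl⟩ := hα
    cases Y with
    | nil => simp at hβ
    | cons a Y => simp at hβ
  | @rule r hr n1 m1 β₁ α0 β₂ h1 h2 =>
    simp only [List.cons.injEq, Symbol.nonterminal.injEq] at hα
    obtain ⟨rfl, rfl⟩ := hα
    refine ⟨r, hr, rfl, n1, by omega, ?_⟩
    cases h2 with
    | nil =>
      rw [List.append_nil] at hβ ⊢
      exact h1

theorem LD.terminal_len {n : ℕ} {a : Δ} {Y : List Δ} (h : LD g n [Symbol.terminal a] (tm Y)) :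
    Y.length = 1 := by
  generalize hα : [Symbol.terminal a] = α at h
  generalize hβ : (tm Y : List (Symbol Δ g.NT)) = β at h
  cases h with
  | nil => simp at hα
  | skip s h =>
    simp only [List.cons.injEq] at hα
    obtain ⟨rfl, rfl⟩ := hα
    cases h with
    | nil =>
      have := congrArg List.length hβ
      simpa using this
  | rule r hr h1 h2 => simp at hα

theorem LD.tm_split {n : ℕ} {α α' : List (Symbol Δ g.NT)} {Y : List Δ}
    (h : LD g n (α ++ α') (tm Y)) : ∃ n1 n2 Y1 Y2, n1 + n2 = n ∧ Y = Y1 ++ Y2 ∧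
      LD g n1 α (tm Y1) ∧ LD g n2 α' (tm Y2) := by
  obtain ⟨n1, n2, β₁, β₂, h1, h2, h3, h4⟩ := h.split α α' rfl
  obtain ⟨Y1, Y2, rfl, rfl, rfl⟩ := List.map_eq_append_iff.1 h2
  exact ⟨n1, n2, Y1, Y2, h1, rfl, h3, h4⟩

/-- locating a factor of the yield -/
theorem locate (α : List (Symbol Δ g.NT)) : ∀ (n : ℕ) (a mid b : List Δ),
    LD g n α (tm (a ++ (mid ++ b))) → mid ≠ [] →
    (∃ α₁ s α₂ y₁ a' b' y₂ n', α = α₁ ++ s :: α₂ ∧ g.Derives α₁ (tm y₁) ∧
      LD g n' [s] (tm (a' ++ (mid ++ b'))) ∧ n' ≤ n ∧ (∃ n'', LD g n'' α₂ (tm y₂)) ∧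
      a = y₁ ++ a' ∧ b = b' ++ y₂) ∨
    (∃ α₁ α₂ m₁ m₂, α = α₁ ++ α₂ ∧ mid = m₁ ++ m₂ ∧ g.Derives α₁ (tm (a ++ m₁)) ∧
      g.Derives α₂ (tm (m₂ ++ b))) := by
  induction α with
  | nil =>
    intro n a mid b h hmid
    exfalso
    have h1 : n = 0 ∧ (tm (a ++ (mid ++ b)) : List (Symbol Δ g.NT)) = [] := by
      generalize hβ : (tm (a ++ (mid ++ b)) : List (Symbol Δ g.NT)) = β at h
      cases h with
      | nil => exact ⟨rfl, rfl⟩
    have h2 := h1.2
    rw [List.map_eq_nil_iff] at h2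
    simp only [List.append_eq_nil_iff] at h2
    exact hmid h2.2.1
  | cons s α ih =>
    intro n a mid b h hmid
    have h' : LD g n ([s] ++ α) (tm (a ++ (mid ++ b))) := h
    obtain ⟨n1, n2, Y1, Y2, hn, hY, h1, h2⟩ := h'.tm_split
    rcases List.append_eq_append_iff.1 hY with ⟨c, rfl, h3⟩ | ⟨c, rfl, h3⟩
    · -- Y1 = a ++ c, mid ++ b = c ++ Y2
      rcases List.append_eq_append_iff.1 h3 with ⟨d, rfl, h5⟩ | ⟨d, rfl, h5⟩
      · -- c = mid ++ d, b = d ++ Y2
        left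
        refine ⟨[], s, α, [], a, d, Y2, n1, rfl, Derives.refl _, h1, by omega, ⟨n2, h2⟩, rfl, h5⟩
      · -- mid = c ++ d, Y2 = d ++ b
        right
        subst h5
        exact ⟨[s], α, c, d, rfl, rfl, h1.derives, h2.derives⟩
    · -- a = Y1 ++ c, Y2 = c ++ (mid ++ b)
      subst h3
      rcases ih n2 c mid b h2 hmid with ⟨α₁, s', α₂, y₁, a', b', y₂, n', e1, e2, e3, e4, e5, e6, e7⟩ |
        ⟨α₁, α₂, m₁, m₂, e1, e2, e3, e4⟩
      · left
        refine ⟨s :: α₁, s', α₂, Y1 ++ y₁, a', b', y₂, n', by simp [e1], ?_, e3, by omega, e5,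
          by simp [e6], e7⟩
        have := derives_append h1.derives e2
        simpa using this
      · right
        refine ⟨s :: α₁, α₂, m₁, m₂, by simp [e1], e2, ?_, e4⟩
        have := derives_append h1.derives e3
        simpa using this

/-- branching -/
inductive Br (g : ContextFreeGrammar Δ) : ℕ → g.NT → List Δ → Prop
  | zero {A : g.NT} {v : List Δ} (h : g.Derives [Symbol.nonterminal A] (tm v)) (hv : v ≠ []) :
      Br g 0 A v
  | succ {k : ℕ} {A C₁ C₂ : g.NT} {u v w y₁ y₂ : List Δ}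
      (h : g.Derives [Symbol.nonterminal A] (tm u ++ (Symbol.nonterminal C₁ ::
        (tm v ++ (Symbol.nonterminal C₂ :: tm w)))))
      (h1 : Br g k C₁ y₁) (h2 : Br g k C₂ y₂) : Br g (k + 1) A (u ++ (y₁ ++ (v ++ (y₂ ++ w))))

theorem Br.up {k : ℕ} {A C : g.NT} {y u w : List Δ} (h : Br g (k + 1) C y)
    (hA : g.Derives [Symbol.nonterminal A] (tm u ++ (Symbol.nonterminal C :: tm w))) :
    Br g (k + 1) A (u ++ (y ++ w)) := by
  cases h with
  | @succ _ _ C₁ C₂ u' v' w' y₁ y₂ h h1 h2 =>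
    have h3 : g.Derives [Symbol.nonterminal A] (tm (u ++ u') ++ (Symbol.nonterminal C₁ ::
        (tm v' ++ (Symbol.nonterminal C₂ :: tm (w' ++ w))))) := by
      refine hA.trans ?_
      have := derives_append (Derives.refl (tm u)) (derives_append h (Derives.refl (tm w)))
      simpa using this
    have h4 := Br.succ h3 h1 h2
    simpa using h4

def AllXY (x y : Δ) (w : List Δ) : Prop := ∀ a ∈ w, a = x ∨ a = y

/-- bounds -/
def Bnd [DecidableEq Δ] (g : ContextFreeGrammar Δ) (x y : Δ) (r : ContextFreeRule Δ g.NT)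
    (α₁ α₂ : List (Symbol Δ g.NT)) (C : ℕ) : Prop :=
  ∀ u Y₁ Y₂ u' : List Δ, g.Derives [Symbol.nonterminal g.initial]
    (tm u ++ (Symbol.nonterminal r.input :: tm u')) →
    g.Derives α₁ (tm Y₁) → g.Derives α₂ (tm Y₂) → AllXY x y (u ++ (Y₁ ++ (Y₂ ++ u'))) →
    (x ∈ u ++ Y₁ → ∀ P S, Y₂ = P ++ S → P.count y ≤ P.count x + C) ∧
    (y ∈ Y₂ ++ u' → ∀ P Q, Y₁ = P ++ Q → Q.count x ≤ Q.count y + C)

theorem derive_word {r : ContextFreeRule Δ g.NT} (hr : r ∈ g.rules)
    {α₁ α₂ : List (Symbol Δ g.NT)} (he : r.output = α₁ ++ α₂) {u Y₁ Y₂ u' : List Δ}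
    (h : g.Derives [Symbol.nonterminal g.initial] (tm u ++ (Symbol.nonterminal r.input :: tm u')))
    (h1 : g.Derives α₁ (tm Y₁)) (h2 : g.Derives α₂ (tm Y₂)) :
    u ++ (Y₁ ++ (Y₂ ++ u')) ∈ g.language := by
  rw [mem_language_iff]
  refine h.trans ?_
  have h3 : g.Derives [Symbol.nonterminal r.input] (tm Y₁ ++ tm Y₂) :=
    derives_rule hr (by rw [he]; exact derives_append h1 h2)
  have := derives_append (Derives.refl (tm u)) (derives_append h3 (Derives.refl (tm u')))
  simpa using this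

theorem exists_bnd [LinearOrder Δ] {x y : Δ} (hxy : x < y)
    (hg : ∀ w ∈ g.language, w ≠ [] → w ∈ L0 Δ) {r : ContextFreeRule Δ g.NT} (hr : r ∈ g.rules)
    {α₁ α₂ : List (Symbol Δ g.NT)} (he : r.output = α₁ ++ α₂) :
    ∃ C, Bnd g x y r α₁ α₂ C := by
  classical
  have hne : x ≠ y := ne_of_lt hxy
  -- closers
  have hc : ∃ C, ∀ u Y₁ Y₂ u' : List Δ, g.Derives [Symbol.nonterminal g.initial]
      (tm u ++ (Symbol.nonterminal r.input :: tm u')) →
      g.Derives α₁ (tm Y₁) → g.Derives α₂ (tm Y₂) → AllXY x y (u ++ (Y₁ ++ (Y₂ ++ u'))) →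
      x ∈ u ++ Y₁ → ∀ P S, Y₂ = P ++ S → P.count y ≤ P.count x + C := by
    by_cases hex : ∃ u Y₁ u' : List Δ, g.Derives [Symbol.nonterminal g.initial]
      (tm u ++ (Symbol.nonterminal r.input :: tm u')) ∧ g.Derives α₁ (tm Y₁) ∧
      AllXY x y (u ++ (Y₁ ++ u')) ∧ x ∈ u ++ Y₁
    · obtain ⟨u, Y₁, u', h1, h2, h3, h4⟩ := hex
      refine ⟨(u ++ Y₁).length, ?_⟩
      intro u1 Z₁ Y₂ u1' _ _ h5 h6 _ P S hPS
      have hw := derive_word hr he h1 h2 h5
      have hxw : x ∈ u ++ (Y₁ ++ (Y₂ ++ u')) := by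
        rw [← List.append_assoc]; exact List.mem_append_left _ h4
      have hall : AllXY x y (u ++ (Y₁ ++ (Y₂ ++ u'))) := by
        intro a ha
        simp only [List.mem_append] at ha
        rcases ha with ha | ha | ha | ha
        · exact h3 a (by simp [ha])
        · exact h3 a (by simp [ha])
        · exact h6 a (by simp [ha])
        · exact h3 a (by simp [ha])
      have hL := hg _ hw (List.ne_nil_of_mem hxw)
      have hE := L0_EE hxy hL hall hxw
      have := F1 hne hE (u ++ Y₁ ++ P) (S ++ u') (by rw [hPS]; simp)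
      rw [List.count_append] at this
      have h7 : (u ++ Y₁).count x ≤ (u ++ Y₁).length := List.count_le_length
      rw [List.count_append (l₂ := P)] at this
      omega
    · refine ⟨0, ?_⟩
      intro u Y₁ Y₂ u' h1 h2 h3 h4 h5
      exfalso
      apply hex
      refine ⟨u, Y₁, u', h1, h2, ?_, h5⟩
      intro a ha
      simp only [List.mem_append] at ha
      apply h4
      simp only [List.mem_append]
      tauto
  have ho : ∃ C, ∀ u Y₁ Y₂ u' : List Δ, g.Derives [Symbol.nonterminal g.initial]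
      (tm u ++ (Symbol.nonterminal r.input :: tm u')) →
      g.Derives α₁ (tm Y₁) → g.Derives α₂ (tm Y₂) → AllXY x y (u ++ (Y₁ ++ (Y₂ ++ u'))) →
      y ∈ Y₂ ++ u' → ∀ P Q, Y₁ = P ++ Q → Q.count x ≤ Q.count y + C := by
    by_cases hex : ∃ u Y₂ u' : List Δ, g.Derives [Symbol.nonterminal g.initial]
      (tm u ++ (Symbol.nonterminal r.input :: tm u')) ∧ g.Derives α₂ (tm Y₂) ∧
      AllXY x y (u ++ (Y₂ ++ u')) ∧ y ∈ Y₂ ++ u'
    · obtain ⟨u, Y₂, u', h1, h2, h3, h4⟩ := hex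
      refine ⟨(Y₂ ++ u').length, ?_⟩
      intro u1 Y₁ Z₂ u1' _ h5 _ h6 _ P Q hPQ
      by_cases hxQ : x ∈ Q
      · have hw := derive_word hr he h1 h5 h2
        have hxw : x ∈ u ++ (Y₁ ++ (Y₂ ++ u')) := by
          rw [hPQ]; simp [hxQ]
        have hall : AllXY x y (u ++ (Y₁ ++ (Y₂ ++ u'))) := by
          intro a ha
          simp only [List.mem_append] at ha
          rcases ha with ha | ha | ha | ha
          · exact h3 a (by simp [ha])
          · exact h6 a (by simp [ha])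
          · exact h3 a (by simp [ha])
          · exact h3 a (by simp [ha])
        have hL := hg _ hw (List.ne_nil_of_mem hxw)
        have hE := L0_EE hxy hL hall hxw
        exact F2 hne hE (u ++ P) Q (Y₂ ++ u') (by rw [hPQ]; simp) h4
      · rw [List.count_eq_zero.2 hxQ]
        omega
    · refine ⟨0, ?_⟩
      intro u Y₁ Y₂ u' h1 h2 h3 h4 h5
      exfalso
      apply hex
      refine ⟨u, Y₂, u', h1, h3, ?_, h5⟩
      intro a ha
      simp only [List.mem_append] at ha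
      apply h4
      simp only [List.mem_append]
      tauto
  obtain ⟨C1, hC1⟩ := hc
  obtain ⟨C2, hC2⟩ := ho
  refine ⟨C1 + C2, ?_⟩
  intro u Y₁ Y₂ u' h1 h2 h3 h4
  refine ⟨?_, ?_⟩
  · intro h5 P S h6
    have := hC1 u Y₁ Y₂ u' h1 h2 h3 h4 h5 P S h6
    omega
  · intro h5 P S h6
    have := hC2 u Y₁ Y₂ u' h1 h2 h3 h4 h5 P S h6
    omega

theorem exists_bnd_uniform [LinearOrder Δ] {x y : Δ} (hxy : x < y)
    (hg : ∀ w ∈ g.language, w ≠ [] → w ∈ L0 Δ) :
    ∃ C, ∀ r ∈ g.rules, ∀ α₁ α₂, r.output = α₁ ++ α₂ → Bnd g x y r α₁ α₂ C := by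
  classical
  have h1 : ∀ (r : ContextFreeRule Δ g.NT) (i : ℕ), ∃ C, r ∈ g.rules →
      Bnd g x y r (r.output.take i) (r.output.drop i) C := by
    intro r i
    by_cases hr : r ∈ g.rules
    · obtain ⟨C, hC⟩ := exists_bnd hxy hg hr (α₁ := r.output.take i) (α₂ := r.output.drop i)
        (List.take_append_drop i _).symm
      exact ⟨C, fun _ => hC⟩
    · exact ⟨0, fun h => absurd h hr⟩
  choose f hf using h1
  refine ⟨g.rules.sup (fun r => (Finset.range (r.output.length + 1)).sup (f r)), ?_⟩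
  intro r hr α₁ α₂ he
  have h2 := hf r α₁.length hr
  have h3 : r.output.take α₁.length = α₁ := by rw [he]; simp
  have h4 : r.output.drop α₁.length = α₂ := by rw [he]; simp
  rw [h3, h4] at h2
  have h5 : f r α₁.length ≤ g.rules.sup (fun r => (Finset.range (r.output.length + 1)).sup (f r)) := by
    refine le_trans ?_ (Finset.le_sup (f := fun r => (Finset.range (r.output.length + 1)).sup (f r)) hr)
    exact Finset.le_sup (f := f r) (by rw [Finset.mem_range, he]; simp)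
  intro u Y₁ Y₂ u' e1 e2 e3 e4
  obtain ⟨e5, e6⟩ := h2 u Y₁ Y₂ u' e1 e2 e3 e4
  refine ⟨?_, ?_⟩
  · intro a P S b
    have := e5 a P S b
    omega
  · intro a P S b
    have := e6 a P S b
    omega

end Pool.Agent.GF
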