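import Mathlib
import Pool.Agent.Hhelper70.GF.Claim

namespace Pool.Agent.GF

open ContextFreeGrammar

theorem allXY_append {Δ : Type} {x y : Δ} {a b : List Δ} :
    AllXY x y (a ++ b) ↔ AllXY x y a ∧ AllXY x y b := by
  constructor
  · intro h
    exact ⟨fun c hc => h c (List.mem_append_left _ hc), fun c hc => h c (List.mem_append_right _ hc)⟩
  · rintro ⟨h1, h2⟩ c hc
    rcases List.mem_append.1 hc with hc | hc
    · exact h1 c hc
    · exact h2 c hc

variable {Δ : Type} [LinearOrder Δ] {g : ContextFreeGrammar Δ}

theorem allXY_repx (x y : Δ) (n : ℕ) : AllXY x y (List.replicate n x) :=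
  fun _ ha => Or.inl (List.eq_of_mem_replicate ha)

theorem allXY_repy (x y : Δ) (n : ℕ) : AllXY x y (List.replicate n y) :=
  fun _ ha => Or.inr (List.eq_of_mem_replicate ha)

theorem no_open {x y : Δ} (hne : x ≠ y) {C k : ℕ} {r : ContextFreeRule Δ g.NT}
    {β₁ β₂ : List (Symbol Δ g.NT)} (hB : Bnd g x y r β₁ β₂ C) {u u' s t m₁ m₂ : List Δ}
    (hctx : g.Derives [Symbol.nonterminal g.initial]
      (tm u ++ (Symbol.nonterminal r.input :: tm u')))
    (hu : AllXY x y u) (hs : AllXY x y s) (ht : AllXY x y t) (hu' : AllXY x y u')
    (hytu : y ∈ t ++ u') (hm12 : inw x y (C + 1) k = m₁ ++ m₂)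
    (hd1 : g.Derives β₁ (tm (s ++ (inw x y (C + 1) k ++ (List.replicate (C + 1) y ++
          (List.replicate (C + 1) x ++ m₁))))))
    (hd2 : g.Derives β₂ (tm (m₂ ++ t))) : False := by
  have hIn := Dy_inw x y (C + 1) k
  have hInl : AllXY x y (inw x y (C + 1) k) := hIn.letters
  have hm : AllXY x y m₁ ∧ AllXY x y m₂ := by
    rw [hm12, allXY_append] at hInl
    exact hInl
  have h1 := (hB u _ _ u' hctx hd1 hd2 (by
    simp only [allXY_append, hu, hs, ht, hu', hm.1, hm.2, hInl, allXY_repx, allXY_repy,
      and_self])).2 (by
      rw [List.append_assoc]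
      exact List.mem_append_right _ hytu)
    (s ++ (inw x y (C + 1) k ++ List.replicate (C + 1) y)) (List.replicate (C + 1) x ++ m₁)
    (by simp)
  have h2 := hIn.pre hne m₁ m₂ hm12
  simp only [List.count_append, List.count_replicate_self, List.count_replicate] at h1
  have h3 : (x == y) = false := by simp [hne]
  simp only [h3] at h1
  simp at h1
  omega

theorem no_close {x y : Δ} (hne : x ≠ y) {C k : ℕ} {r : ContextFreeRule Δ g.NT}
    {β₁ β₂ : List (Symbol Δ g.NT)} (hB : Bnd g x y r β₁ β₂ C) {u u' s t m₁ m₂ : List Δ}
    (hctx : g.Derives [Symbol.nonterminal g.initial]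
      (tm u ++ (Symbol.nonterminal r.input :: tm u')))
    (hu : AllXY x y u) (hs : AllXY x y s) (ht : AllXY x y t) (hu' : AllXY x y u')
    (hxus : x ∈ u ++ s) (hm12 : inw x y (C + 1) k = m₁ ++ m₂)
    (hd1 : g.Derives β₁ (tm (s ++ m₁)))
    (hd2 : g.Derives β₂ (tm (m₂ ++ (List.replicate (C + 1) y ++ t)))) : False := by
  have hIn := Dy_inw x y (C + 1) k
  have hInl : AllXY x y (inw x y (C + 1) k) := hIn.letters
  have hm : AllXY x y m₁ ∧ AllXY x y m₂ := by
    rw [hm12, allXY_append] at hInl
    exact hInl
  have h1 := (hB u _ _ u' hctx hd1 hd2 (by
    simp only [allXY_append, hu, hs, ht, hu', hm.1, hm.2, allXY_repy, and_self])).1 (by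
      rw [← List.append_assoc]
      exact List.mem_append_left _ hxus)
    (m₂ ++ List.replicate (C + 1) y) t (by simp)
  have h2 := hIn.suf hne m₁ m₂ hm12
  simp only [List.count_append, List.count_replicate_self, List.count_replicate] at h1
  have h3 : (y == x) = false := by simp [hne.symm]
  simp only [h3] at h1
  simp at h1
  omega

theorem claim {x y : Δ} (hxy : x < y) {C : ℕ}
    (hB : ∀ r ∈ g.rules, ∀ α₁ α₂, r.output = α₁ ++ α₂ → Bnd g x y r α₁ α₂ C) (k : ℕ) :
    ∀ (n : ℕ) (A : g.NT) (u u' s t : List Δ),
    LD g n [Symbol.nonterminal A] (tm (s ++ (fw x y (C + 1) k ++ t))) →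
    g.Derives [Symbol.nonterminal g.initial] (tm u ++ (Symbol.nonterminal A :: tm u')) →
    AllXY x y (u ++ (s ++ (t ++ u'))) →
    (∃ z, u ++ s = z ++ List.replicate (C + 1) x) →
    (∃ z, t ++ u' = List.replicate (C + 1) y ++ z) →
    Br g k A (s ++ (fw x y (C + 1) k ++ t)) := by
  have hne : x ≠ y := ne_of_lt hxy
  induction k with
  | zero =>
    intro n A u u' s t h _ _ _ _
    refine Br.zero h.derives ?_
    simp [fw]
  | succ k ihk =>
    intro n
    induction n using Nat.strong_induction_on with
    | _ n ihn =>
    intro A u u' s t h hctx hall hz hz'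
    obtain ⟨r, hr, rfl, m, hm, hLD⟩ := h.inv_nt
    have hIn2 := two_le_inw x y (C + 1) k
    have hInne : inw x y (C + 1) k ≠ [] := by
      intro h0; rw [h0] at hIn2; simp at hIn2
    have hInl : AllXY x y (inw x y (C + 1) k) := (Dy_inw x y (C + 1) k).letters
    have hxus : x ∈ u ++ s := by
      obtain ⟨z, hz⟩ := hz
      rw [hz]
      exact List.mem_append_right _ (by simp)
    have hytu : y ∈ t ++ u' := by
      obtain ⟨z, hz⟩ := hz'
      rw [hz]
      exact List.mem_append_left _ (by simp)
    have hall' := hall
    simp only [allXY_append] at hall'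
    obtain ⟨au, as, at', au'⟩ := hall'
    rw [fw_succ] at hLD ⊢
    have hLD' : LD g m r.output (tm (s ++ (inw x y (C + 1) k ++ (List.replicate (C + 1) y ++
        (List.replicate (C + 1) x ++ (inw x y (C + 1) k ++ t)))))) := by
      simpa only [List.append_assoc] using hLD
    rcases locate r.output m s (inw x y (C + 1) k) _ hLD' hInne with
      ⟨α₁, sy, α₂, y₁, a', b', y₂, n', e1, e2, e3, e4, ⟨n'', e5⟩, e6, e7⟩ |
      ⟨α₁, α₂, m₁, m₂, e1, e2, e3, e4⟩
    · -- the first inner word is within one symbol
      cases sy with
      | terminal a =>
        exfalso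
        have := e3.terminal_len
        simp only [List.length_append] at this
        omega
      | nonterminal C₁ =>
        have hA1 : g.Derives [Symbol.nonterminal r.input]
            (tm y₁ ++ (Symbol.nonterminal C₁ :: tm y₂)) := by
          refine derives_rule hr ?_
          rw [e1]
          exact derives_append e2 (derives_append (Derives.refl [Symbol.nonterminal C₁])
            e5.derives)
        have hctx1 : g.Derives [Symbol.nonterminal g.initial]
            (tm (u ++ y₁) ++ (Symbol.nonterminal C₁ :: tm (y₂ ++ u'))) := by
          refine hctx.trans ?_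
          have := derives_append (Derives.refl (tm u)) (derives_append hA1 (Derives.refl (tm u')))
          simpa using this
        subst e6
        obtain ⟨ay₁, aa'⟩ := allXY_append.1 as
        -- compare `b'` with the middle part
        have e7' : (List.replicate (C + 1) y ++ List.replicate (C + 1) x) ++
            (inw x y (C + 1) k ++ t) = b' ++ y₂ := by
          rw [← e7]; simp
        rcases List.append_eq_append_iff.1 e7' with ⟨c, e8, e9⟩ | ⟨c, e8, e9⟩
        · -- b' = yx ++ c, inw ++ t = c ++ y₂
          rcases List.append_eq_append_iff.1 e9 with ⟨d, e10, e11⟩ | ⟨d, e10, e11⟩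
          · -- c = inw ++ d, t = d ++ y₂
            subst e10 e11 e8
            obtain ⟨ad, ay₂⟩ := allXY_append.1 at'
            have h3 : LD g n' [Symbol.nonterminal C₁]
                (tm (a' ++ (fw x y (C + 1) (k + 1) ++ d))) := by
              rw [fw_succ]
              simpa only [List.append_assoc] using e3
            have h4 := ihn n' (by omega) C₁ (u ++ y₁) (y₂ ++ u') a' d h3 hctx1 (by
              simp only [allXY_append, au, ay₁, aa', ad, ay₂, au', and_self]) (by
                obtain ⟨z, hz⟩ := hz
                exact ⟨z, by rw [← hz]; simp⟩) (by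
                obtain ⟨z, hz⟩ := hz'
                exact ⟨z, by rw [← hz]; simp⟩)
            have h5 := h4.up hA1
            rw [fw_succ] at h5
            simpa only [List.append_assoc] using h5
          · -- inw = c ++ d, y₂ = d ++ t : contradiction
            exfalso
            subst e11
            subst e8
            refine no_open hne (hB r hr (α₁ ++ [Symbol.nonterminal C₁]) α₂ (by rw [e1]; simp))
              hctx au as at' au' hytu e10 ?_ e5.derives
            have := derives_append e2 e3.derives
            simpa only [List.append_assoc, ← List.map_append] using this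
        · -- yx = b' ++ c, y₂ = c ++ (inw ++ t)
          subst e9
          have abc : AllXY x y (b' ++ c) := by
            rw [← e8, allXY_append]
            exact ⟨allXY_repy x y _, allXY_repx x y _⟩
          obtain ⟨ab', ac⟩ := allXY_append.1 abc
          rcases locate α₂ n'' c (inw x y (C + 1) k) t e5 hInne with
            ⟨β₁, sy, β₂, z₁, a2, b2, z₂, n2, f1, f2, f3, f4, ⟨n3, f5⟩, f6, f7⟩ |
            ⟨β₁, β₂, m₁, m₂, f1, f2, f3, f4⟩
          · cases sy with
            | terminal a =>
              exfalso
              have := f3.terminal_len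
              simp only [List.length_append] at this
              omega
            | nonterminal C₂ =>
              subst f6 f7 f1
              obtain ⟨az₁, aa2⟩ := allXY_append.1 ac
              obtain ⟨ab2, az₂⟩ := allXY_append.1 at'
              have hA2 : g.Derives [Symbol.nonterminal r.input]
                  (tm y₁ ++ (Symbol.nonterminal C₁ :: (tm z₁ ++ (Symbol.nonterminal C₂ ::
                    tm z₂)))) := by
                refine derives_rule hr ?_
                rw [e1]
                exact derives_append e2 (derives_append (Derives.refl [Symbol.nonterminal C₁])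
                  (derives_append f2 (derives_append (Derives.refl [Symbol.nonterminal C₂])
                    f5.derives)))
              have hctx2 : g.Derives [Symbol.nonterminal g.initial]
                  (tm (u ++ (y₁ ++ ((a' ++ (inw x y (C + 1) k ++ b')) ++ z₁))) ++
                    (Symbol.nonterminal C₂ :: tm (z₂ ++ u'))) := by
                refine hctx.trans ?_
                have h1 := hA2.trans (derives_append (Derives.refl (tm y₁))
                  (derives_append e3.derives (Derives.refl (tm z₁ ++ (Symbol.nonterminal C₂ ::
                    tm z₂)))))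
                have := derives_append (Derives.refl (tm u))
                  (derives_append h1 (Derives.refl (tm u')))
                simpa using this
              have hb1 := ihk n' C₁ (u ++ y₁) (z₁ ++ (a2 ++ (inw x y (C + 1) k ++ (b2 ++ (z₂ ++ u')))))
                (a' ++ List.replicate (C + 1) x) (List.replicate (C + 1) y ++ b') (by
                  have := e3
                  simpa only [inw, List.append_assoc] using this) (by
                  have := hctx1
                  simpa only [List.append_assoc] using this) (by
                  simp only [allXY_append, au, ay₁, aa', allXY_repx, allXY_repy, ab', az₁, aa2,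
                    hInl, ab2, az₂, au', and_self]) ⟨u ++ (y₁ ++ a'), by simp⟩
                  ⟨b' ++ (z₁ ++ (a2 ++ (inw x y (C + 1) k ++ (b2 ++ (z₂ ++ u'))))), by simp⟩
              have hb2 := ihk n2 C₂ (u ++ (y₁ ++ ((a' ++ (inw x y (C + 1) k ++ b')) ++ z₁)))
                (z₂ ++ u') (a2 ++ List.replicate (C + 1) x) (List.replicate (C + 1) y ++ b2) (by
                  have := f3
                  simpa only [inw, List.append_assoc] using this) hctx2 (by
                  simp only [allXY_append, au, ay₁, aa', allXY_repx, allXY_repy, ab', az₁, aa2,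
                    hInl, ab2, az₂, au', and_self])
                  ⟨u ++ (y₁ ++ ((a' ++ (inw x y (C + 1) k ++ b')) ++ (z₁ ++ a2))), by simp⟩
                  ⟨b2 ++ (z₂ ++ u'), by simp⟩
              have h5 := Br.succ hA2 hb1 hb2
              have e9 : y₁ ++ ((a' ++ List.replicate (C + 1) x ++ (fw x y (C + 1) k ++
                  (List.replicate (C + 1) y ++ b'))) ++ (z₁ ++ ((a2 ++ List.replicate (C + 1) x ++
                  (fw x y (C + 1) k ++ (List.replicate (C + 1) y ++ b2))) ++ z₂))) =
                  y₁ ++ a' ++ (inw x y (C + 1) k ++ (List.replicate (C + 1) y ++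
                  (List.replicate (C + 1) x ++ inw x y (C + 1) k)) ++ (b2 ++ z₂)) := by
                have : y₁ ++ ((a' ++ List.replicate (C + 1) x ++ (fw x y (C + 1) k ++
                  (List.replicate (C + 1) y ++ b'))) ++ (z₁ ++ ((a2 ++ List.replicate (C + 1) x ++
                  (fw x y (C + 1) k ++ (List.replicate (C + 1) y ++ b2))) ++ z₂))) =
                  y₁ ++ a' ++ (inw x y (C + 1) k ++ ((b' ++ (z₁ ++ a2)) ++
                  (inw x y (C + 1) k ++ (b2 ++ z₂)))) := by
                  simp only [inw, List.append_assoc]
                rw [this, ← e8]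
                simp only [List.append_assoc]
              rw [e9] at h5
              exact h5
          · exfalso
            subst f1
            refine no_open hne (hB r hr (α₁ ++ (Symbol.nonterminal C₁ :: β₁)) β₂
              (by rw [e1]; simp)) hctx au as at' au' hytu f2 ?_ f4
            have h6 := derives_append e2 (derives_append e3.derives f3)
            have e9 : y₁ ++ a' ++ (inw x y (C + 1) k ++ (List.replicate (C + 1) y ++
                (List.replicate (C + 1) x ++ m₁))) =
                y₁ ++ ((a' ++ (inw x y (C + 1) k ++ b')) ++ (c ++ m₁)) := by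
              have : y₁ ++ ((a' ++ (inw x y (C + 1) k ++ b')) ++ (c ++ m₁)) =
                y₁ ++ a' ++ (inw x y (C + 1) k ++ ((b' ++ c) ++ m₁)) := by
                simp only [List.append_assoc]
              rw [this, ← e8]
              simp only [List.append_assoc]
            rw [e9]
            simpa only [List.map_append, List.cons_append, List.nil_append] using h6
    · -- cut inside the first inner word: closers violation
      exfalso
      refine no_close hne (hB r hr α₁ α₂ e1) hctx au as (t := List.replicate (C + 1) x ++
        (inw x y (C + 1) k ++ t)) ?_ au' hxus e2 e3 e4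
      simp only [allXY_append, allXY_repx, hInl, at', and_self]

end Pool.Agent.GF
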