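import Mathlib
import Pool.Agent.Hhelper70.GF.Defs
import Pool.Agent.Hhelper70.GF.Basic

namespace Pool.Agent.GF

open ContextFreeGrammar

variable {T : Type} {g : ContextFreeGrammar T} {c : T}

theorem pow_append (g : ContextFreeGrammar T) (c : T) (m n : ℕ) :
    pow g c m ++ pow g c n = pow g c (m + n) := by
  simp [pow]

theorem map_pow {N : Type} (m : ℕ) : (tm (List.replicate m c) : List (Symbol T N)) =
    List.replicate m (Symbol.terminal c) := by
  simp [tm]

/-- closure of the set of exponents -/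
theorem lam_step {A : g.NT} {p q r : ℕ}
    (hA : g.Derives [Symbol.nonterminal A] (pow g c p ++ [Symbol.nonterminal A] ++ pow g c q ++
      [Symbol.nonterminal A] ++ pow g c r)) {m n : ℕ}
    (hm : g.Derives [Symbol.nonterminal A] (pow g c m))
    (hn : g.Derives [Symbol.nonterminal A] (pow g c n)) :
    g.Derives [Symbol.nonterminal A] (pow g c (m + (n + (p + q + r)))) := by
  refine hA.trans ?_
  have h1 := derives_append (Derives.refl (pow g c p)) (derives_append hm
    (derives_append (Derives.refl (pow g c q)) (derives_append hn (Derives.refl (pow g c r)))))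
  simp only [List.append_assoc]
  simp only [pow_append] at h1
  have e : p + (m + (q + (n + r))) = m + (n + (p + q + r)) := by ring
  rw [e] at h1
  exact h1

theorem lam_iter {A : g.NT} {p q r l : ℕ}
    (hA : g.Derives [Symbol.nonterminal A] (pow g c p ++ [Symbol.nonterminal A] ++ pow g c q ++
      [Symbol.nonterminal A] ++ pow g c r))
    (hl : g.Derives [Symbol.nonterminal A] (pow g c l)) {m : ℕ}
    (hm : g.Derives [Symbol.nonterminal A] (pow g c m)) (t : ℕ) :
    g.Derives [Symbol.nonterminal A] (pow g c (m + (l + (p + q + r)) * t)) := by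
  induction t with
  | zero => simpa using hm
  | succ t ih =>
    have := lam_step hA ih hl
    have e : m + (l + (p + q + r)) * (t + 1) =
      m + (l + (p + q + r)) * t + (l + (p + q + r)) := by ring
    rw [e]
    exact this

theorem input_of_derives {A : g.NT} {α : List (Symbol T g.NT)}
    (h : g.Derives [Symbol.nonterminal A] α) (hne : α ≠ [Symbol.nonterminal A]) :
    ∃ r ∈ g.rules, r.input = A := by
  rcases h.eq_or_head with h | ⟨v, hv, _⟩
  · exact absurd h.symm hne
  · obtain ⟨r, hr, hrw⟩ := hv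
    have := hrw.nonterminal_input_mem
    simp only [List.mem_singleton, Symbol.nonterminal.injEq] at this
    exact ⟨r, hr, this⟩

theorem expansive_input {A : g.NT} (h : ExpansiveOn g c A) : ∃ r ∈ g.rules, r.input = A := by
  obtain ⟨_, l, hl, h⟩ := h
  refine input_of_derives h ?_
  intro e
  cases l with
  | zero => omega
  | succ l => simp [pow, List.replicate_succ] at e

/-- the second condition of the characterisation -/
def Cond2 (g : ContextFreeGrammar T) (c : T) : Prop :=
  ∃ N : ℕ, ∀ n, N ≤ n → ∃ (A : g.NT) (p m q : ℕ), p + m + q = n ∧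
    g.Derives [Symbol.nonterminal g.initial] (pow g c p ++ [Symbol.nonterminal A] ++ pow g c q) ∧
    g.Derives [Symbol.nonterminal A] (pow g c m) ∧ ExpansiveOn g c A

theorem pack (h : Cond2 g c) : ∃ D, 0 < D ∧ ∃ Z0, 1 ≤ Z0 ∧ ∀ ρ, ρ < D →
    ∃ (A : g.NT) (p q r P Q : ℕ), P ≤ Z0 ∧ Q ≤ Z0 ∧ p + q + r ≤ Z0 ∧
    g.Derives [Symbol.nonterminal A] (pow g c p ++ [Symbol.nonterminal A] ++ pow g c q ++
      [Symbol.nonterminal A] ++ pow g c r) ∧
    g.Derives [Symbol.nonterminal g.initial] (pow g c P ++ [Symbol.nonterminal A] ++ pow g c Q) ∧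
    ∀ n, Z0 ≤ n → ((n + (p + q + r)) % D = 0 ∨ (P + n + Q) % D = ρ) →
      g.Derives [Symbol.nonterminal A] (pow g c n) := by
  classical
  obtain ⟨N, hN⟩ := h
  have hdat : ∀ A : g.NT, ∃ d, 0 < d ∧ (ExpansiveOn g c A → ∃ p q r l, 1 ≤ l ∧
      g.Derives [Symbol.nonterminal A] (pow g c p ++ [Symbol.nonterminal A] ++ pow g c q ++
        [Symbol.nonterminal A] ++ pow g c r) ∧ g.Derives [Symbol.nonterminal A] (pow g c l) ∧
      l + (p + q + r) = d) := by
    intro A
    by_cases hA : ExpansiveOn g c A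
    · obtain ⟨⟨p, q, r, h1⟩, l, hl, h2⟩ := hA
      exact ⟨l + (p + q + r), by omega, fun _ => ⟨p, q, r, l, hl, h1, h2, rfl⟩⟩
    · exact ⟨1, one_pos, fun h => absurd h hA⟩
  choose d hd0 hd using hdat
  let D := ∏ r ∈ g.rules, d r.input
  have hD : 0 < D := Finset.prod_pos (fun r _ => hd0 _)
  have hdvd : ∀ A, ExpansiveOn g c A → d A ∣ D := by
    intro A hA
    obtain ⟨r, hr, rfl⟩ := expansive_input hA
    exact Finset.dvd_prod_of_mem (fun r : ContextFreeRule T g.NT => d r.input) hr
  refine ⟨D, hD, ?_⟩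
  have key : ∀ ρ, ρ < D → ∃ Z, ∃ (A : g.NT) (p q r P Q : ℕ), P ≤ Z ∧ Q ≤ Z ∧ p + q + r ≤ Z ∧
    g.Derives [Symbol.nonterminal A] (pow g c p ++ [Symbol.nonterminal A] ++ pow g c q ++
      [Symbol.nonterminal A] ++ pow g c r) ∧
    g.Derives [Symbol.nonterminal g.initial] (pow g c P ++ [Symbol.nonterminal A] ++ pow g c Q) ∧
    ∀ n, Z ≤ n → 1 ≤ n → ((n + (p + q + r)) % D = 0 ∨ (P + n + Q) % D = ρ) →
      g.Derives [Symbol.nonterminal A] (pow g c n) := by
    intro ρ hρ
    obtain ⟨A, P, m, Q, h1, h2, h3, h4⟩ := hN (ρ + D * N) (by nlinarith)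
    obtain ⟨p, q, r, l, hl, h5, h6, h7⟩ := hd A h4
    obtain ⟨e, he⟩ := hdvd A h4
    refine ⟨P + Q + m + (p + q + r), A, p, q, r, P, Q, by omega, by omega, by omega, h5, h2, ?_⟩
    intro n hn hn1 hor
    rcases hor with h8 | h8
    · obtain ⟨t, ht⟩ := Nat.dvd_of_mod_eq_zero h8
      have h9 := lam_iter h5 h6 h6 (e * t - 1)
      have hpos : 1 ≤ e * t := by
        rcases Nat.eq_zero_or_pos (e * t) with h0 | h0
        · exfalso
          rw [he, mul_assoc, h0] at ht
          omega
        · exact h0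
      obtain ⟨k, hk⟩ : ∃ k, e * t = k + 1 := ⟨e * t - 1, by omega⟩
      rw [hk] at h9
      simp only [Nat.add_sub_cancel] at h9
      have e1 : n = l + (l + (p + q + r)) * k := by
        rw [he, mul_assoc, hk, ← h7] at ht
        have : (l + (p + q + r)) * (k + 1) = (l + (p + q + r)) * k + (l + (p + q + r)) := by ring
        omega
      rw [e1]
      exact h9
    · have h9 : (ρ + D * N) % D = ρ := by
        rw [Nat.add_mul_mod_self_left, Nat.mod_eq_of_lt hρ]
      have h10 : (P + m + Q) % D = (P + n + Q) % D := by rw [h8, h1, h9]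
      have h11 : D ∣ (P + n + Q) - (P + m + Q) := by
        rw [← Nat.modEq_iff_dvd' (by omega)]
        exact h10
      obtain ⟨t, ht⟩ := h11
      have h12 := lam_iter h5 h6 h3 (e * t)
      have e1 : n = m + (l + (p + q + r)) * (e * t) := by
        rw [he, mul_assoc, ← h7] at ht
        omega
      rw [e1]
      exact h12
  choose! Z hZ using key
  refine ⟨(Finset.range D).sup Z + 1, by omega, ?_⟩
  intro ρ hρ
  obtain ⟨A, p, q, r, P, Q, h1, h2, h3, h4, h5, h6⟩ := hZ ρ hρ
  have hle : Z ρ ≤ (Finset.range D).sup Z := Finset.le_sup (f := Z) (Finset.mem_range.2 hρ)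
  exact ⟨A, p, q, r, P, Q, by omega, by omega, by omega, h4, h5,
    fun n hn hor => h6 n (by omega) (by omega) hor⟩

end Pool.Agent.GF
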