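import Mathlib
import Pool.Agent.Hhelper70.GF.Branch
import Pool.Agent.Hhelper70.GF.Pack

namespace Pool.Agent.GF

open ContextFreeGrammar

variable {T Δ : Type}

/-- an s-interpretation gives symbol maps sending rules to rules -/
theorem exists_maps [Nonempty T] {G' : ContextFreeGrammar Δ} {G : ContextFreeGrammar T}
    (h : IsSInterpretation G' G) : ∃ (φT : Δ → T) (φN : G'.NT → G.NT),
    φN G'.initial = G.initial ∧
    ∀ r' ∈ G'.rules, ∃ r ∈ G.rules, r.input = φN r'.input ∧
      r.output = r'.output.map (smap φT φN) := by
  classical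
  obtain ⟨μT, μN, _, _, hT, hN, hr, hi⟩ := h
  let φT : Δ → T := fun d => if h : ∃ a, d ∈ μT a then h.choose else Classical.arbitrary T
  let φN : G'.NT → G.NT := fun X => if h : ∃ A, X ∈ μN A then h.choose else G.initial
  have h1 : ∀ d a, d ∈ μT a → φT d = a := by
    intro d a hd
    have hex : ∃ a, d ∈ μT a := ⟨a, hd⟩
    simp only [φT, dif_pos hex]
    by_contra hne
    exact Set.disjoint_left.1 (hT _ _ hne) hex.choose_spec hd
  have h2 : ∀ X A, X ∈ μN A → φN X = A := by
    intro X A hX
    have hex : ∃ A, X ∈ μN A := ⟨A, hX⟩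
    simp only [φN, dif_pos hex]
    by_contra hne
    exact Set.disjoint_left.1 (hN _ _ hne) hex.choose_spec hX
  refine ⟨φT, φN, h2 _ _ hi, ?_⟩
  intro r' hr'
  obtain ⟨r, hrr, h3, h4⟩ := hr r' hr'
  refine ⟨r, hrr, (h2 _ _ h3).symm, ?_⟩
  have h5 : ∀ (l' : List (Symbol Δ G'.NT)) (l : List (Symbol T G.NT)),
      List.Forall₂ (SymInterp μT μN) l' l → l = l'.map (smap φT φN) := by
    intro l' l h
    induction h with
    | nil => rfl
    | @cons a b l1 l2 hab _ ih =>
      rw [List.map_cons, ← ih]
      congr 1
      cases a with
      | terminal d =>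
        cases b with
        | terminal a => exact congrArg Symbol.terminal (h1 d a hab).symm
        | nonterminal A => exact hab.elim
      | nonterminal X =>
        cases b with
        | terminal a => exact hab.elim
        | nonterminal A => exact congrArg Symbol.nonterminal (h2 X A hab).symm
  exact h5 _ _ h4

theorem allXY_nil {x y : Δ} : AllXY x y [] := fun _ ha => by simp at ha

section maps
variable {G' : ContextFreeGrammar Δ} {G : ContextFreeGrammar T} {φT : Δ → T}
  {φN : G'.NT → G.NT}

theorem map_derives (hr : ∀ r' ∈ G'.rules, ∃ r ∈ G.rules, r.input = φN r'.input ∧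
      r.output = r'.output.map (smap φT φN)) {α β : List (Symbol Δ G'.NT)}
    (h : G'.Derives α β) : G.Derives (α.map (smap φT φN)) (β.map (smap φT φN)) := by
  obtain ⟨n, hn⟩ := LD.of_derives h
  clear h
  induction hn with
  | nil => exact Derives.refl _
  | skip s _ ih => exact ih.append_left [_]
  | @rule r' hr' n1 m1 β₁ α0 β₂ h1 h2 ih1 ih2 =>
    obtain ⟨r, hrr, e1, e2⟩ := hr r' hr'
    have h3 : G.Derives [Symbol.nonterminal r.input] (β₁.map (smap φT φN)) :=
      derives_rule hrr (by rw [e2]; exact ih1)
    have h4 := derives_append h3 ih2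
    rw [e1, ← List.map_append] at h4
    exact h4

theorem map_tm_pow {x y : Δ} {c : T} (hx : φT x = c) (hy : φT y = c) {w : List Δ}
    (hw : AllXY x y w) : (tm w : List (Symbol Δ G'.NT)).map (smap φT φN) = pow G c w.length := by
  rw [smap_tm]
  have : w.map φT = List.replicate w.length c := by
    rw [List.eq_replicate_iff]
    refine ⟨by simp, ?_⟩
    intro b hb
    obtain ⟨a, ha, rfl⟩ := List.mem_map.1 hb
    rcases hw a ha with rfl | rfl
    · exact hx
    · exact hy
  rw [this]
  simp [tm, pow]

/-- branching in the form -/
inductive BT (G : ContextFreeGrammar T) (c : T) (U : Set G.NT) : ℕ → G.NT → ℕ → Prop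
  | zero {A : G.NT} {n : ℕ} (hA : A ∈ U) (hn : 1 ≤ n)
      (h : G.Derives [Symbol.nonterminal A] (pow G c n)) : BT G c U 0 A n
  | succ {k : ℕ} {A C₁ C₂ : G.NT} {i j l n₁ n₂ : ℕ} (hA : A ∈ U)
      (h : G.Derives [Symbol.nonterminal A] (pow G c i ++ (Symbol.nonterminal C₁ ::
        (pow G c j ++ (Symbol.nonterminal C₂ :: pow G c l)))))
      (h1 : BT G c U k C₁ n₁) (h2 : BT G c U k C₂ n₂) :
      BT G c U (k + 1) A (i + (n₁ + (j + (n₂ + l))))

theorem BT.pos {c : T} {U : Set G.NT} {k : ℕ} {A : G.NT} {n : ℕ} (h : BT G c U k A n) :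
    1 ≤ n := by
  induction h with
  | zero _ hn _ => exact hn
  | succ _ _ _ _ ih1 ih2 => omega

theorem BT.derives {c : T} {U : Set G.NT} {k : ℕ} {A : G.NT} {n : ℕ} (h : BT G c U k A n) :
    G.Derives [Symbol.nonterminal A] (pow G c n) := by
  induction h with
  | zero _ _ h => exact h
  | @succ k A C₁ C₂ i j l n₁ n₂ _ h _ _ ih1 ih2 =>
    refine h.trans ?_
    have h3 := derives_append (Derives.refl (pow G c i)) (derives_append ih1
      (derives_append (Derives.refl (pow G c j)) (derives_append ih2
        (Derives.refl (pow G c l)))))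
    simp only [pow_append] at h3
    exact h3

theorem BT.mem {c : T} {U : Set G.NT} {k : ℕ} {A : G.NT} {n : ℕ} (h : BT G c U k A n) :
    A ∈ U := by
  cases h with
  | zero hA _ _ => exact hA
  | succ hA _ _ _ => exact hA

theorem Br.derives {k : ℕ} {A : G'.NT} {v : List Δ} (h : Br G' k A v) :
    G'.Derives [Symbol.nonterminal A] (tm v) := by
  induction h with
  | zero h _ => exact h
  | @succ k A C₁ C₂ u v w y₁ y₂ h _ _ ih1 ih2 =>
    refine h.trans ?_
    have h3 := derives_append (Derives.refl (tm u)) (derives_append ih1
      (derives_append (Derives.refl (tm v)) (derives_append ih2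
        (Derives.refl (tm w)))))
    simpa only [List.map_append, List.cons_append, List.nil_append] using h3

theorem Br.toBT (hr : ∀ r' ∈ G'.rules, ∃ r ∈ G.rules, r.input = φN r'.input ∧
      r.output = r'.output.map (smap φT φN)) {x y : Δ} {c : T} (hx : φT x = c) (hy : φT y = c)
    {k : ℕ} {A : G'.NT} {v : List Δ} (h : Br G' k A v) (hv : AllXY x y v) :
    BT G c {A | ∃ r ∈ G.rules, r.input = A} k (φN A) v.length := by
  have hmem : ∀ (A : G.NT) (n : ℕ), G.Derives [Symbol.nonterminal A] (pow G c n) →
      A ∈ {A | ∃ r ∈ G.rules, r.input = A} := by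
    intro A n h
    refine input_of_derives h ?_
    intro e
    cases n with
    | zero => simp [pow] at e
    | succ n => simp [pow, List.replicate_succ] at e
  have hder : ∀ {A : G'.NT} {v : List Δ}, G'.Derives [Symbol.nonterminal A] (tm v) →
      AllXY x y v → G.Derives [Symbol.nonterminal (φN A)] (pow G c v.length) := by
    intro A v h hv
    have := map_derives hr h
    rw [map_tm_pow hx hy hv] at this
    exact this
  induction h with
  | @zero A v h hv0 =>
    exact BT.zero (hmem _ _ (hder h hv)) (List.length_pos_of_ne_nil hv0) (hder h hv)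
  | @succ k A C₁ C₂ u v w y₁ y₂ h h1 h2 ih1 ih2 =>
    have hd := (Br.succ h h1 h2).derives
    have hmm := hmem _ _ (hder hd hv)
    simp only [allXY_append] at hv
    obtain ⟨a1, a2, a3, a4, a5⟩ := hv
    have h3 := map_derives hr h
    simp only [List.map_append, List.map_cons, List.map_nil, map_tm_pow hx hy a1,
      map_tm_pow hx hy a3, map_tm_pow hx hy a5] at h3
    have h4 := BT.succ hmm h3 (ih1 a2) (ih2 a4)
    simpa only [List.length_append] using h4

/-- dichotomy -/
theorem BT.dich {c : T} {U : Set G.NT} {k : ℕ} {A : G.NT} {n : ℕ} (h : BT G c U k A n)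
    (Z : G.NT) : BT G c (U \ {Z}) k A n ∨ ∃ p m q, p + (m + q) = n ∧ 1 ≤ m ∧
      G.Derives [Symbol.nonterminal A] (pow G c p ++ (Symbol.nonterminal Z :: pow G c q)) ∧
      G.Derives [Symbol.nonterminal Z] (pow G c m) := by
  classical
  induction h with
  | @zero A n hA hn h =>
    by_cases hZ : A = Z
    · right
      subst hZ
      exact ⟨0, n, 0, by omega, hn, by simpa [pow] using Derives.refl _, h⟩
    · left
      exact BT.zero ⟨hA, hZ⟩ hn h
  | @succ k A C₁ C₂ i j l n₁ n₂ hA h h1 h2 ih1 ih2 =>
    by_cases hZ : A = Z
    · right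
      subst hZ
      have h3 := BT.succ hA h h1 h2
      exact ⟨0, _, 0, by omega, h3.pos, by simpa [pow] using Derives.refl _, h3.derives⟩
    · rcases ih1 with ih1 | ⟨p, m, q, e1, e2, e3, e4⟩
      · rcases ih2 with ih2 | ⟨p, m, q, e1, e2, e3, e4⟩
        · left
          exact BT.succ ⟨hA, hZ⟩ h ih1 ih2
        · right
          refine ⟨i + (n₁ + (j + p)), m, q + l, by omega, e2, ?_, e4⟩
          refine h.trans ?_
          have h3 := derives_append (Derives.refl (pow G c i)) (derives_append h1.derives
            (derives_append (Derives.refl (pow G c j)) (derives_append e3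
              (Derives.refl (pow G c l)))))
          have e : pow G c (i + (n₁ + (j + p))) ++ (Symbol.nonterminal Z :: pow G c (q + l)) =
            pow G c i ++ (pow G c n₁ ++ (pow G c j ++ ((pow G c p ++ (Symbol.nonterminal Z ::
              pow G c q)) ++ pow G c l))) := by
            simp only [← pow_append, List.append_assoc, List.cons_append]
          rw [e]
          exact h3
      · right
        refine ⟨i + p, m, q + (j + (n₂ + l)), by omega, e2, ?_, e4⟩
        refine h.trans ?_
        have h3 := derives_append (Derives.refl (pow G c i)) (derives_append e3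
          (derives_append (Derives.refl (pow G c j)) (derives_append h2.derives
            (Derives.refl (pow G c l)))))
        have e : pow G c (i + p) ++ (Symbol.nonterminal Z :: pow G c (q + (j + (n₂ + l)))) =
          pow G c i ++ ((pow G c p ++ (Symbol.nonterminal Z ::
            pow G c q)) ++ (pow G c j ++ (pow G c n₂ ++ pow G c l))) := by
          simp only [← pow_append, List.append_assoc, List.cons_append]
        rw [e]
        exact h3

theorem BT.expansive {c : T} (k : ℕ) : ∀ (U : Set G.NT), U.Finite → U.ncard ≤ k →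
    ∀ (A : G.NT) (n : ℕ), BT G c U k A n → ∃ Z p m q, p + (m + q) = n ∧
      G.Derives [Symbol.nonterminal A] (pow G c p ++ (Symbol.nonterminal Z :: pow G c q)) ∧
      G.Derives [Symbol.nonterminal Z] (pow G c m) ∧ ExpansiveOn G c Z := by
  induction k with
  | zero =>
    intro U hU hc A n h
    exfalso
    have := (Set.ncard_eq_zero hU).1 (by omega)
    rw [this] at h
    exact h.mem
  | succ k ih =>
    intro U hU hc A n h
    have hA := h.mem
    have hU' : (U \ {A}).Finite := hU.subset Set.sdiff_subset
    have hc' : (U \ {A}).ncard ≤ k := by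
      have := Set.ncard_sdiff_singleton_add_one hA hU
      omega
    cases h with
    | @succ _ _ C₁ C₂ i j l n₁ n₂ _ h h1 h2 =>
      rcases h1.dich A with g1 | ⟨p1, m1, q1, a1, a2, a3, a4⟩
      · obtain ⟨Z, p, m, q, e1, e2, e3, e4⟩ := ih _ hU' hc' _ _ g1
        refine ⟨Z, i + p, m, q + (j + (n₂ + l)), by omega, ?_, e3, e4⟩
        refine h.trans ?_
        have h3 := derives_append (Derives.refl (pow G c i)) (derives_append e2
          (derives_append (Derives.refl (pow G c j)) (derives_append h2.derives
            (Derives.refl (pow G c l)))))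
        have e : pow G c (i + p) ++ (Symbol.nonterminal Z :: pow G c (q + (j + (n₂ + l)))) =
          pow G c i ++ ((pow G c p ++ (Symbol.nonterminal Z ::
            pow G c q)) ++ (pow G c j ++ (pow G c n₂ ++ pow G c l))) := by
          simp only [← pow_append, List.append_assoc, List.cons_append]
        rw [e]
        exact h3
      · rcases h2.dich A with g2 | ⟨p2, m2, q2, b1, b2, b3, b4⟩
        · obtain ⟨Z, p, m, q, e1, e2, e3, e4⟩ := ih _ hU' hc' _ _ g2
          refine ⟨Z, i + (n₁ + (j + p)), m, q + l, by omega, ?_, e3, e4⟩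
          refine h.trans ?_
          have h3 := derives_append (Derives.refl (pow G c i)) (derives_append h1.derives
            (derives_append (Derives.refl (pow G c j)) (derives_append e2
              (Derives.refl (pow G c l)))))
          have e : pow G c (i + (n₁ + (j + p))) ++ (Symbol.nonterminal Z :: pow G c (q + l)) =
            pow G c i ++ (pow G c n₁ ++ (pow G c j ++ ((pow G c p ++ (Symbol.nonterminal Z ::
              pow G c q)) ++ pow G c l))) := by
            simp only [← pow_append, List.append_assoc, List.cons_append]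
          rw [e]
          exact h3
        · have hself := BT.succ hA h h1 h2
          refine ⟨A, 0, _, 0, by omega, ?_, hself.derives, ⟨⟨i + p1, q1 + (j + p2), q2 + l, ?_⟩,
            _, hself.pos, hself.derives⟩⟩
          · simpa [pow] using Derives.refl _
          · refine h.trans ?_
            have h3 := derives_append (Derives.refl (pow G c i)) (derives_append a3
              (derives_append (Derives.refl (pow G c j)) (derives_append b3
                (Derives.refl (pow G c l)))))
            have e : pow G c (i + p1) ++ [Symbol.nonterminal A] ++ pow G c (q1 + (j + p2)) ++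
              [Symbol.nonterminal A] ++ pow G c (q2 + l) =
              pow G c i ++ ((pow G c p1 ++ (Symbol.nonterminal A ::
                pow G c q1)) ++ (pow G c j ++ ((pow G c p2 ++ (Symbol.nonterminal A ::
                pow G c q2)) ++ pow G c l))) := by
              simp only [← pow_append, List.append_assoc, List.cons_append, List.nil_append]
            rw [e]
            exact h3

end maps

theorem den_no_terminal {I : Type} (γ : List (Symbol Δ I)) (h : ∀ s ∈ γ, ∀ d, s ≠ Symbol.terminal d) :
    den (fun _ : I => ({[]} : Set (List Δ))) γ ⊆ {[]} := by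
  induction γ with
  | nil => exact subset_rfl
  | cons s γ ih =>
    have ih' := ih (fun s hs => h s (List.mem_cons_of_mem _ hs))
    cases s with
    | terminal d => exact absurd rfl (h _ List.mem_cons_self d)
    | nonterminal i =>
      rintro w ⟨u, hu, v, hv, rfl⟩
      have h1 : u = [] := hu
      have h2 : v = [] := ih' hv
      simp [h1, h2]

theorem nonempty_terminals {G' : ContextFreeGrammar Δ} {G : ContextFreeGrammar T}
    (h : IsSInterpretation G' G) {w : List Δ} (hw : w ∈ G'.language) (hne : w ≠ []) :
    Nonempty T := by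
  by_contra hT
  rw [not_nonempty_iff] at hT
  obtain ⟨μT, μN, _, _, _, _, hr, _⟩ := h
  have h1 := language_subset (g := G') (F := fun _ => {[]}) ?_ hw
  · exact hne h1
  · intro r' hr'
    apply den_no_terminal
    intro s hs d hd
    subst hd
    obtain ⟨r, _, _, h4⟩ := hr r' hr'
    have h5 : ∀ (l' : List (Symbol Δ G'.NT)) (l : List (Symbol T G.NT)),
      List.Forall₂ (SymInterp μT μN) l' l → Symbol.terminal d ∉ l' := by
      intro l' l h
      induction h with
      | nil => simp
      | @cons a b l1 l2 hab _ ih =>
        simp only [List.mem_cons, not_or]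
        refine ⟨?_, ih⟩
        rintro rfl
        cases b with
        | terminal a => exact hT.elim a
        | nonterminal A => exact hab.elim
    exact h5 _ _ h4 hs

theorem necessity [Finite T] (G : ContextFreeGrammar T)
    (h : ∀ (Δ : Type) [Finite Δ] (L : Language Δ), L.IsContextFree →
    ∃ G' : ContextFreeGrammar Δ, IsSInterpretation G' G ∧ EqModEmpty L G'.language) :
    ∃ c : T, (∀ n, 1 ≤ n → List.replicate n c ∈ G.language) ∧ Cond2 G c := by
  classical
  obtain ⟨g0, hg0⟩ := L0_cf (Fin (Nat.card T + 2))
  obtain ⟨G', hG', hL⟩ := h (Fin (Nat.card T + 2)) g0.language ⟨g0, rfl⟩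
  have hlang : ∀ w, w ≠ [] → (w ∈ G'.language ↔ w ∈ L0 (Fin (Nat.card T + 2))) := by
    intro w hw
    rw [← hL w hw, hg0]
  have h01 : (0 : Fin (Nat.card T + 2)) < 1 := by
    simp
  have hT : Nonempty T := by
    refine nonempty_terminals hG' (w := List.replicate 1 0) ?_ (by simp)
    rw [hlang _ (by simp)]
    exact ⟨0, 1, h01, [], 1, Dy.nil, by simp⟩
  obtain ⟨φT, φN, hi, hr⟩ := exists_maps hG'
  -- pigeonhole
  have hninj : ¬ Function.Injective φT := by
    intro hinj
    have := Nat.card_le_card_of_injective φT hinj
    simp at this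
  rw [Function.Injective] at hninj
  push Not at hninj
  obtain ⟨x, y, hc, hxy⟩ : ∃ x y : Fin (Nat.card T + 2), φT x = φT y ∧ x < y := by
    obtain ⟨x, y, h1, h2⟩ := hninj
    rcases lt_or_gt_of_ne h2 with h3 | h3
    · exact ⟨x, y, h1, h3⟩
    · exact ⟨y, x, h1.symm, h3⟩
  have hdw : ∀ w : List (Fin (Nat.card T + 2)), w ∈ G'.language → AllXY x y w →
      G.Derives [Symbol.nonterminal G.initial] (pow G (φT x) w.length) := by
    intro w hw hall
    have h1 := map_derives hr hw
    rw [map_tm_pow rfl hc.symm hall] at h1
    simp only [List.map_cons, List.map_nil, smap, hi] at h1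
    exact h1
  refine ⟨φT x, ?_, ?_⟩
  · intro n hn
    rw [mem_language_iff, List.map_replicate]
    have h1 : List.replicate n x ∈ G'.language := by
      rw [hlang _ (by simp; omega)]
      exact ⟨x, y, hxy, [], n, Dy.nil, by simp⟩
    have := hdw _ h1 (allXY_repx x y n)
    rw [List.length_replicate] at this
    exact this
  · obtain ⟨C, hC⟩ := exists_bnd_uniform (g := G') hxy (fun w hw hne => (hlang w hne).1 hw)
    have hfin : {A : G.NT | ∃ r ∈ G.rules, r.input = A}.Finite := by
      refine (G.rules.finite_toSet.image (fun r => r.input)).subset ?_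
      rintro A ⟨r, hr, rfl⟩
      exact ⟨r, hr, rfl⟩
    let K := {A : G.NT | ∃ r ∈ G.rules, r.input = A}.ncard
    refine ⟨(inw x y (C + 1) K).length, ?_⟩
    intro n hn
    obtain ⟨e, rfl⟩ := Nat.exists_eq_add_of_le hn
    have hdy := Dy_inw x y (C + 1) K
    have hW : inw x y (C + 1) K ++ List.replicate e x ∈ G'.language := by
      rw [hlang _ (by
        have := two_le_inw x y (C + 1) K
        intro h0
        have := congrArg List.length h0
        simp only [List.length_append, List.length_nil] at this
        omega)]
      exact ⟨x, y, hxy, _, e, hdy, rfl⟩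
    obtain ⟨m, hm⟩ := LD.of_derives hW
    have hbr := claim hxy hC K m G'.initial [] [] (List.replicate (C + 1) x)
      (List.replicate (C + 1) y ++ List.replicate e x) (by
        have := hm
        simpa only [inw, List.append_assoc] using this)
      (by simpa using Derives.refl _)
      (by simp only [allXY_append, allXY_repx, allXY_repy, allXY_nil, and_self])
      ⟨[], by simp⟩ ⟨List.replicate e x, by simp⟩
    have hall : AllXY x y (List.replicate (C + 1) x ++ (fw x y (C + 1) K ++
        (List.replicate (C + 1) y ++ List.replicate e x))) := by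
      have h1 : AllXY x y (inw x y (C + 1) K) := hdy.letters
      simp only [inw, allXY_append] at h1
      simp only [allXY_append, allXY_repx, allXY_repy, h1.2.1, and_self]
    have hbt := hbr.toBT hr rfl hc.symm hall
    obtain ⟨Z, p, m', q, e1, e2, e3, e4⟩ := hbt.expansive K _ hfin le_rfl _ _
    refine ⟨Z, p, m', q, ?_, ?_, e3, e4⟩
    · simp only [inw, List.length_append, List.length_replicate] at e1 ⊢
      omega
    · rw [hi] at e2
      simpa using e2

end Pool.Agent.GF
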