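import Mathlib
import Pool.Agent.Hhelper70.GF.Basic

namespace Pool.Agent.GF

open ContextFreeGrammar

/-- semantic binary rule -/
def Bin {K Δ : Type} (T : K → Set (List Δ)) (i j k : K) : Prop :=
  ∀ u ∈ T j, ∀ v ∈ T k, u ++ v ∈ T i

/-- semantic Chomsky normal form -/
def CNFFam {K Δ : Type} (T : K → Set (List Δ)) : Prop :=
  (∀ i, [] ∉ T i) ∧ ∀ i, ∀ w ∈ T i, 2 ≤ w.length → ∃ j k, Bin T i j k ∧
    ∃ u ∈ T j, ∃ v ∈ T k, w = u ++ v

section cnf
variable {Δ : Type} (g : ContextFreeGrammar Δ)

/-- finite set of sentential forms, closed under heads, tails and right-hand sides -/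
def SS : Set (List (Symbol Δ g.NT)) :=
  {α | α <:+: [Symbol.nonterminal g.initial] ∨ ∃ r ∈ g.rules, α <:+: r.output}

theorem finite_infixes {α : Type} (l : List α) : {m | m <:+: l}.Finite := by
  classical
  refine (l.sublists.finite_toSet).subset ?_
  intro m (hm : m <:+: l)
  change m ∈ l.sublists
  rw [List.mem_sublists]
  exact hm.sublist

theorem finite_SS : (SS g).Finite := by
  have : SS g = {α | α <:+: [Symbol.nonterminal g.initial]} ∪
      ⋃ r ∈ g.rules, {α | α <:+: r.output} := by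
    ext α
    simp [SS]
  rw [this]
  refine (finite_infixes _).union ?_
  exact Set.Finite.biUnion g.rules.finite_toSet (fun r _ => finite_infixes _)

theorem SS_infix {α β : List (Symbol Δ g.NT)} (h : α ∈ SS g) (hb : β <:+: α) : β ∈ SS g := by
  rcases h with h | ⟨r, hr, h⟩
  · exact Or.inl (hb.trans h)
  · exact Or.inr ⟨r, hr, hb.trans h⟩

/-- nonempty words derived from a sentential form -/
def TT (α : List (Symbol Δ g.NT)) : Set (List Δ) := {w | w ≠ [] ∧ g.Derives α (tm w)}

variable {g}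

theorem cnf_aux {n : ℕ} {α β : List (Symbol Δ g.NT)} (h : LD g n α β) :
    ∀ w : List Δ, β = tm w → 2 ≤ w.length → α ∈ SS g →
    ∃ γ ∈ SS g, ∃ δ ∈ SS g, (∀ u ∈ TT g γ, ∀ v ∈ TT g δ, u ++ v ∈ TT g α) ∧
      ∃ u ∈ TT g γ, ∃ v ∈ TT g δ, w = u ++ v := by
  induction h with
  | nil =>
    intro w hw h2
    have : w = [] := by simpa using hw.symm
    subst this
    simp at h2
  | @skip s n α β h ih =>
    intro w hw h2 hS
    cases w with
    | nil => simp at h2
    | cons a w =>
      simp only [List.map_cons, List.cons.injEq] at hw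
      obtain ⟨rfl, rfl⟩ := hw
      refine ⟨[Symbol.terminal a], SS_infix g hS ⟨[], α, by simp⟩, α,
        SS_infix g hS ⟨[Symbol.terminal a], [], by simp⟩, ?_, [a], ?_, w, ?_, rfl⟩
      · rintro u ⟨hu1, hu2⟩ v ⟨hv1, hv2⟩
        refine ⟨by simp [hu1], ?_⟩
        have := derives_append hu2 hv2
        simpa [tm] using this
      · exact ⟨by simp, Derives.refl _⟩
      · refine ⟨?_, h.derives⟩
        rintro rfl
        simp at h2
  | @rule r hr n1 m1 β₁ α0 β₂ h1 h2 ih1 ih2 =>
    intro w hw hlen hS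
    obtain ⟨w1, w2, rfl, rfl, rfl⟩ := List.map_eq_append_iff.1 hw.symm
    have hA : [Symbol.nonterminal r.input] ∈ SS g := SS_infix g hS ⟨[], α0, by simp⟩
    have hα0 : α0 ∈ SS g := SS_infix g hS ⟨[Symbol.nonterminal r.input], [], by simp⟩
    have hd1 := derives_rule hr h1.derives
    by_cases e1 : w1 = []
    · subst e1
      simp only [List.nil_append] at hlen ⊢
      obtain ⟨γ, hγ, δ, hδ, h3, h4⟩ := ih2 w2 rfl hlen hα0
      refine ⟨γ, hγ, δ, hδ, ?_, h4⟩
      intro u hu v hv
      obtain ⟨h5, h6⟩ := h3 u hu v hv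
      refine ⟨h5, ?_⟩
      have := derives_append hd1 h6
      simpa using this
    by_cases e2 : w2 = []
    · subst e2
      simp only [List.append_nil] at hlen ⊢
      obtain ⟨γ, hγ, δ, hδ, h3, h4⟩ := ih1 w1 rfl hlen
        (Or.inr ⟨r, hr, List.infix_refl _⟩)
      refine ⟨γ, hγ, δ, hδ, ?_, h4⟩
      intro u hu v hv
      obtain ⟨h5, h6⟩ := h3 u hu v hv
      refine ⟨h5, ?_⟩
      have := derives_append (derives_rule hr h6) h2.derives
      simpa using this
    refine ⟨[Symbol.nonterminal r.input], hA, α0, hα0, ?_, w1, ⟨e1, hd1⟩, w2, ⟨e2, h2.derives⟩, rfl⟩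
    rintro u ⟨hu1, hu2⟩ v ⟨hv1, hv2⟩
    refine ⟨by simp [hu1], ?_⟩
    have := derives_append hu2 hv2
    simpa [tm] using this

theorem exists_cnf (g : ContextFreeGrammar Δ) : ∃ (K : Type) (_ : Finite K)
    (T : K → Set (List Δ)) (i0 : K), CNFFam T ∧ ∀ w, w ∈ T i0 ↔ (w ≠ [] ∧ w ∈ g.language) := by
  refine ⟨SS g, (finite_SS g), fun α => TT g α.1,
    ⟨[Symbol.nonterminal g.initial], Or.inl (List.infix_refl _)⟩, ⟨?_, ?_⟩, ?_⟩
  · intro i hi
    exact hi.1 rfl
  · rintro ⟨α, hα⟩ w hw h2
    obtain ⟨n, hn⟩ := LD.of_derives hw.2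
    obtain ⟨γ, hγ, δ, hδ, h3, h4⟩ := cnf_aux hn w rfl h2 hα
    exact ⟨⟨γ, hγ⟩, ⟨δ, hδ⟩, h3, h4⟩
  · intro w
    rfl

end cnf

/-- right-sibling sequences along left spines -/
inductive RR {K Δ : Type} (T : K → Set (List Δ)) : K → K → List Δ → Prop
  | base {i j k : K} {z : List Δ} (h : Bin T i j k) (hz : z ∈ T k) : RR T j i z
  | step {i j l k : K} {z z' : List Δ} (h1 : RR T j l z) (h : Bin T i l k) (hz : z' ∈ T k) :
      RR T j i (z ++ z')

def revF {K Δ : Type} (T : K → Set (List Δ)) : K → Set (List Δ) := fun i => {w | w.reverse ∈ T i}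

section vfam
variable {K Δ : Type} {T : K → Set (List Δ)}

theorem revF_revF : revF (revF T) = T := by
  funext i
  ext w
  simp [revF]

theorem CNFFam.rev (h : CNFFam T) : CNFFam (revF T) := by
  refine ⟨?_, ?_⟩
  · intro i hi
    exact h.1 i hi
  · intro i w hw h2
    obtain ⟨j, k, hb, u, hu, v, hv, e⟩ := h.2 i w.reverse hw (by simpa using h2)
    refine ⟨k, j, ?_, v.reverse, ?_, u.reverse, ?_, ?_⟩
    · intro a ha b hb'
      have := hb b.reverse hb' a.reverse ha
      simpa [revF] using this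
    · simpa [revF] using hv
    · simpa [revF] using hu
    · have := congrArg List.reverse e
      simpa using this

theorem RR.left {j i : K} {z : List Δ} (h : RR T j i z) : ∀ u ∈ T j, u ++ z ∈ T i := by
  induction h with
  | base h hz => intro u hu; exact h u hu _ hz
  | step h1 h hz ih =>
    intro u hu
    rw [← List.append_assoc]
    exact h _ (ih u hu) _ hz

theorem spine (hT : CNFFam T) : ∀ n : ℕ, ∀ i, ∀ w ∈ T i, w.length ≤ n →
    (∃ d, w = [d]) ∨ ∃ d j z, w = d :: z ∧ [d] ∈ T j ∧ RR T j i z := by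
  intro n
  induction n with
  | zero =>
    intro i w hw h
    have : w = [] := by
      cases w with
      | nil => rfl
      | cons a w => simp at h
    subst this
    exact absurd hw (hT.1 i)
  | succ n ih =>
    intro i w hw hn
    by_cases h2 : 2 ≤ w.length
    · obtain ⟨j, k, hb, u, hu, v, hv, rfl⟩ := hT.2 i w hw h2
      have hv0 : v ≠ [] := by rintro rfl; exact hT.1 k hv
      have hvl : 0 < v.length := List.length_pos_of_ne_nil hv0
      right
      simp only [List.length_append] at hn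
      rcases ih j u hu (by omega) with ⟨d, rfl⟩ | ⟨d, j', z, rfl, hd, hz⟩
      · exact ⟨d, j, v, rfl, hu, RR.base hb hv⟩
      · exact ⟨d, j', z ++ v, rfl, hd, RR.step hz hb hv⟩
    · left
      cases w with
      | nil => exact absurd hw (hT.1 i)
      | cons a w =>
        cases w with
        | nil => exact ⟨a, rfl⟩
        | cons b w => simp at h2

theorem spine' (hT : CNFFam T) {i : K} {w : List Δ} (hw : w ∈ T i) :
    (∃ d, w = [d]) ∨ ∃ d j z, w = d :: z ∧ [d] ∈ T j ∧ RR T j i z :=
  spine hT _ i w hw le_rfl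

theorem RR.trans {j l i : K} {z z' : List Δ} (h : RR T j l z) (h' : RR T l i z') :
    RR T j i (z ++ z') := by
  induction h' with
  | base hb hz => exact RR.step h hb hz
  | step h1 hb hz ih =>
    rw [← List.append_assoc]
    exact RR.step (ih h) hb hz

theorem RR.first {j i : K} {z : List Δ} (h : RR T j i z) : ∃ k z1, z1 ∈ T k ∧
    ((z = z1 ∧ Bin T i j k) ∨ ∃ l z'', z = z1 ++ z'' ∧ Bin T l j k ∧ RR T l i z'') := by
  induction h with
  | base h hz => exact ⟨_, _, hz, Or.inl ⟨rfl, h⟩⟩
  | step h1 h hz ih =>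
    obtain ⟨k, z1, hz1, ih⟩ := ih
    refine ⟨k, z1, hz1, Or.inr ?_⟩
    rcases ih with ⟨rfl, hb⟩ | ⟨l, z'', rfl, hb, hr⟩
    · exact ⟨_, _, rfl, hb, RR.base h hz⟩
    · exact ⟨l, z'' ++ _, by simp, hb, RR.step hr h hz⟩

theorem RR.ne_nil (hT : CNFFam T) {j i : K} {z : List Δ} (h : RR T j i z) : z ≠ [] := by
  cases h with
  | base h hz => rintro rfl; exact hT.1 _ hz
  | step h1 h hz =>
    intro e
    obtain ⟨_, rfl⟩ := List.append_eq_nil_iff.1 e
    exact hT.1 _ hz

/-- product of languages of a list of indices -/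
def pr {X Δ : Type} (V : X → Set (List Δ)) : List X → Set (List Δ)
  | [] => {[]}
  | x :: β => {w | ∃ u ∈ V x, ∃ v ∈ pr V β, w = u ++ v}

theorem mem_pr_append {X : Type} {V : X → Set (List Δ)} {β γ : List X} {w : List Δ} :
    w ∈ pr V (β ++ γ) ↔ ∃ u ∈ pr V β, ∃ v ∈ pr V γ, w = u ++ v := by
  induction β generalizing w with
  | nil => simp [pr]
  | cons x β ih =>
    simp only [List.cons_append, pr, Set.mem_ofPred_eq, ih]
    constructor
    · rintro ⟨u, hu, v, ⟨u', hu', v', hv', rfl⟩, rfl⟩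
      exact ⟨u ++ u', ⟨u, hu, u', hu', rfl⟩, v', hv', by simp⟩
    · rintro ⟨u, ⟨u', hu', v', hv', rfl⟩, v, hv, rfl⟩
      exact ⟨u', hu', v' ++ v, ⟨v', hv', v, hv, rfl⟩, by simp⟩

theorem pr_single {X : Type} {V : X → Set (List Δ)} {x : X} {w : List Δ} :
    w ∈ pr V [x] ↔ w ∈ V x := by
  simp [pr]

theorem mem_pr_rev {X : Type} {V : X → Set (List Δ)} {β : List X} {w : List Δ} :
    w ∈ pr (revF V) β ↔ w.reverse ∈ pr V β.reverse := by
  induction β generalizing w with
  | nil => simp [pr]
  | cons x β ih =>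
    simp only [List.reverse_cons, mem_pr_append]
    constructor
    · rintro ⟨u, hu, v, hv, rfl⟩
      exact ⟨v.reverse, ih.1 hv, u.reverse, pr_single.2 hu, by simp⟩
    · rintro ⟨u, hu, v, hv, e⟩
      refine ⟨v.reverse, ?_, u.reverse, ?_, ?_⟩
      · have := pr_single.1 hv
        simpa [revF] using this
      · rw [ih]; simpa using hu
      · have := congrArg List.reverse e
        simpa using this

/-- left exposure -/
def LExp {X : Type} (V : X → Set (List Δ)) : Prop :=
  ∀ x, ∀ w ∈ V x, ∃ (d : Δ) (β : List X), β.length ≤ 2 ∧ (∀ v ∈ pr V β, d :: v ∈ V x) ∧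
    ∃ v ∈ pr V β, w = d :: v

/-- the family -/
def VV (T : K → Set (List Δ)) : K ⊕ ((K × K) ⊕ (K × K)) → Set (List Δ)
  | Sum.inl i => T i
  | Sum.inr (Sum.inl p) => {z | RR T p.1 p.2 z}
  | Sum.inr (Sum.inr p) => {z | RR (revF T) p.1 p.2 z.reverse}

theorem VV_ne_nil (hT : CNFFam T) (x : K ⊕ ((K × K) ⊕ (K × K))) : [] ∉ VV T x := by
  rcases x with i | p | p
  · exact hT.1 i
  · intro h; exact RR.ne_nil hT h rfl
  · intro h; exact RR.ne_nil hT.rev h rfl

theorem lexp_VV (hT : CNFFam T) : LExp (VV T) := by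
  intro x w hw
  rcases x with i | ⟨j, i⟩ | ⟨j, i⟩
  · rcases spine' hT hw with ⟨d, rfl⟩ | ⟨d, j, z, rfl, hd, hz⟩
    · refine ⟨d, [], by simp, ?_, [], rfl, rfl⟩
      rintro v rfl
      exact hw
    · refine ⟨d, [Sum.inr (Sum.inl (j, i))], by simp, ?_, z, pr_single.2 hz, rfl⟩
      intro v hv
      have hv : RR T j i v := pr_single.1 hv
      exact hv.left [d] hd
  · have hw : RR T j i w := hw
    obtain ⟨k, z1, hz1, h⟩ := hw.first
    rcases h with ⟨rfl, hb⟩ | ⟨l, z'', rfl, hb, hr⟩
    · rcases spine' hT hz1 with ⟨d, rfl⟩ | ⟨d, j', z, rfl, hd, hz⟩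
      · refine ⟨d, [], by simp, ?_, [], rfl, rfl⟩
        rintro v rfl
        exact hw
      · refine ⟨d, [Sum.inr (Sum.inl (j', k))], by simp, ?_, z, pr_single.2 hz, rfl⟩
        intro v hv
        have hv : RR T j' k v := pr_single.1 hv
        exact RR.base hb (hv.left [d] hd)
    · rcases spine' hT hz1 with ⟨d, rfl⟩ | ⟨d, j', z, rfl, hd, hz⟩
      · refine ⟨d, [Sum.inr (Sum.inl (l, i))], by simp, ?_, z'', pr_single.2 hr, rfl⟩
        intro v hv
        have hv : RR T l i v := pr_single.1 hv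
        exact (RR.base hb hz1).trans hv
      · refine ⟨d, [Sum.inr (Sum.inl (j', k)), Sum.inr (Sum.inl (l, i))], by simp, ?_, z ++ z'',
          ⟨z, hz, z'', pr_single.2 hr, rfl⟩, rfl⟩
        rintro v ⟨a, ha, b, hb', rfl⟩
        have ha : RR T j' k a := ha
        have hb' : RR T l i b := pr_single.1 hb'
        exact (RR.base hb (ha.left [d] hd)).trans hb'
  · have hw : RR (revF T) j i w.reverse := hw
    generalize hy : w.reverse = y at hw
    cases hw with
    | @base _ _ k _ hb hz =>
      have hz' : w ∈ T k := by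
        have : y.reverse ∈ T k := hz
        rw [← hy] at this
        simpa using this
      rcases spine' hT hz' with ⟨d, rfl⟩ | ⟨d, j', z, rfl, hd, hz2⟩
      · refine ⟨d, [], by simp, ?_, [], rfl, rfl⟩
        rintro v rfl
        change RR (revF T) j i [d].reverse
        rw [hy]
        exact RR.base hb hz
      · refine ⟨d, [Sum.inr (Sum.inl (j', k))], by simp, ?_, z, pr_single.2 hz2, rfl⟩
        intro v hv
        have hv : RR T j' k v := pr_single.1 hv
        refine RR.base hb ?_
        change (d :: v).reverse.reverse ∈ T k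
        rw [List.reverse_reverse]
        exact hv.left [d] hd
    | @step _ _ l k z0 z' h1 hb hz =>
      have hw' : w = z'.reverse ++ z0.reverse := by
        have := congrArg List.reverse hy
        simpa using this
      have hz' : z'.reverse ∈ T k := hz
      rcases spine' hT hz' with ⟨d, hd⟩ | ⟨d, j', z, hd0, hd, hz2⟩
      · refine ⟨d, [Sum.inr (Sum.inr (j, l))], by simp, ?_, z0.reverse, pr_single.2 ?_, ?_⟩
        · intro v hv
          have hv : v ∈ VV T (Sum.inr (Sum.inr (j, l))) := pr_single.1 hv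
          have hv : RR (revF T) j l v.reverse := hv
          change RR (revF T) j i (d :: v).reverse
          rw [List.reverse_cons]
          refine RR.step hv hb ?_
          change [d].reverse.reverse ∈ T k
          rw [List.reverse_reverse, ← hd]
          exact hz'
        · change RR (revF T) j l z0.reverse.reverse
          rw [List.reverse_reverse]
          exact h1
        · rw [hw', hd]; rfl
      · refine ⟨d, [Sum.inr (Sum.inl (j', k)), Sum.inr (Sum.inr (j, l))], by simp, ?_,
          z ++ z0.reverse, ⟨z, hz2, z0.reverse, pr_single.2 ?_, rfl⟩, ?_⟩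
        · rintro v ⟨a, ha, b, hb', rfl⟩
          have ha : RR T j' k a := ha
          have hb' : b ∈ VV T (Sum.inr (Sum.inr (j, l))) := pr_single.1 hb'
          have hb' : RR (revF T) j l b.reverse := hb'
          change RR (revF T) j i (d :: (a ++ b)).reverse
          have e : (d :: (a ++ b)).reverse = b.reverse ++ (d :: a).reverse := by simp
          rw [e]
          refine RR.step hb' hb ?_
          change (d :: a).reverse.reverse ∈ T k
          rw [List.reverse_reverse]
          exact ha.left [d] hd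
        · change RR (revF T) j l z0.reverse.reverse
          rw [List.reverse_reverse]
          exact h1
        · rw [hw', hd0]; rfl

def swapX {K : Type} : K ⊕ ((K × K) ⊕ (K × K)) → K ⊕ ((K × K) ⊕ (K × K))
  | Sum.inl i => Sum.inl i
  | Sum.inr (Sum.inl p) => Sum.inr (Sum.inr p)
  | Sum.inr (Sum.inr p) => Sum.inr (Sum.inl p)

theorem revF_VV (x : K ⊕ ((K × K) ⊕ (K × K))) : revF (VV T) x = VV (revF T) (swapX x) := by
  rcases x with i | p | p
  · rfl
  · ext w
    change RR T p.1 p.2 w.reverse ↔ RR (revF (revF T)) p.1 p.2 w.reverse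
    rw [revF_revF]
  · ext w
    simp [revF, VV, swapX]

theorem pr_comp {X Y : Type} {V : Y → Set (List Δ)} (f : X → Y) (β : List X) :
    pr (fun x => V (f x)) β = pr V (β.map f) := by
  induction β with
  | nil => rfl
  | cons x β ih => simp only [pr, List.map_cons, ih]

theorem swapX_swapX (x : K ⊕ ((K × K) ⊕ (K × K))) : swapX (swapX x) = x := by
  rcases x with i | p | p <;> rfl

theorem lexp_rev_VV (hT : CNFFam T) : LExp (revF (VV T)) := by
  have h1 : revF (VV T) = fun x => VV (revF T) (swapX x) := by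
    funext x; exact revF_VV x
  intro x w hw
  rw [h1] at hw ⊢
  obtain ⟨d, β, hβ, h2, v, hv, rfl⟩ := lexp_VV hT.rev (swapX x) w hw
  refine ⟨d, β.map swapX, by simpa using hβ, ?_, v, ?_, rfl⟩
  · intro v' hv'
    rw [pr_comp, List.map_map] at hv'
    have : (swapX ∘ swapX : K ⊕ ((K × K) ⊕ (K × K)) → _) = id := by
      funext x; exact swapX_swapX x
    rw [this, List.map_id] at hv'
    exact h2 v' hv'
  · rw [pr_comp, List.map_map]
    have : (swapX ∘ swapX : K ⊕ ((K × K) ⊕ (K × K)) → _) = id := by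
      funext x; exact swapX_swapX x
    rw [this, List.map_id]
    exact hv

theorem LExp.iter {X : Type} {V : X → Set (List Δ)} (hV : LExp V) (n : ℕ) :
    ∀ (β : List X) (w : List Δ), w ∈ pr V β → n ≤ w.length →
    ∃ (U : List Δ) (β' : List X), U.length = n ∧ β'.length ≤ β.length + n ∧
      (∀ v ∈ pr V β', U ++ v ∈ pr V β) ∧ ∃ v ∈ pr V β', w = U ++ v := by
  induction n with
  | zero =>
    intro β w hw _
    exact ⟨[], β, rfl, by simp, fun v hv => hv, w, hw, rfl⟩
  | succ n ih =>
    intro β w hw hn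
    cases β with
    | nil =>
      have : w = [] := hw
      subst this
      simp at hn
    | cons x β =>
      obtain ⟨w1, hw1, w0, hw0, rfl⟩ := hw
      obtain ⟨d, β1, hβ1, h2, v, hv, rfl⟩ := hV x w1 hw1
      obtain ⟨U, β', h3, h4, h5, v', hv', h6⟩ := ih (β1 ++ β) (v ++ w0)
        (mem_pr_append.2 ⟨v, hv, w0, hw0, rfl⟩) (by simp at hn ⊢; omega)
      refine ⟨d :: U, β', by simp [h3], ?_, ?_, v', hv', ?_⟩
      · simp only [List.length_append, List.length_cons] at h4 ⊢
        omega
      · intro y hy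
        obtain ⟨a, ha, b, hb, e⟩ := mem_pr_append.1 (h5 y hy)
        refine ⟨d :: a, h2 a ha, b, hb, ?_⟩
        simp only [List.cons_append]
        rw [e]
      · simp only [List.cons_append]
        rw [h6]

theorem exposure {X : Type} {V : X → Set (List Δ)} (hL : LExp V) (hR : LExp (revF V))
    (n : ℕ) (x : X) (w : List Δ) (hw : w ∈ V x) (hn : 2 * n ≤ w.length) :
    ∃ (U W : List Δ) (β : List X), U.length = n ∧ W.length = n ∧ β.length ≤ 2 * n + 1 ∧
      (∀ v ∈ pr V β, U ++ v ++ W ∈ V x) ∧ ∃ v ∈ pr V β, w = U ++ v ++ W := by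
  obtain ⟨U, β, h1, h2, h3, v, hv, rfl⟩ := hL.iter n [x] w (pr_single.2 hw) (by omega)
  have hv' : v.reverse ∈ pr (revF V) β.reverse := by
    rw [mem_pr_rev]; simpa using hv
  obtain ⟨W, β', h4, h5, h6, v', hv'', h7⟩ := hR.iter n β.reverse v.reverse hv'
    (by simp only [List.length_append, List.length_reverse] at hn ⊢; omega)
  refine ⟨U, W.reverse, β'.reverse, h1, by simpa using h4, ?_, ?_, v'.reverse, ?_, ?_⟩
  · simp only [List.length_reverse, List.length_singleton] at h2 h5 ⊢
    omega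
  · intro y hy
    have hy' : y.reverse ∈ pr (revF V) β' := by
      rw [mem_pr_rev]; simpa using hy
    have := h6 _ hy'
    rw [mem_pr_rev] at this
    have h8 := h3 _ (by simpa using this)
    have h9 := pr_single.1 h8
    simpa using h9
  · rw [mem_pr_rev] at hv''
    exact hv''
  · have := congrArg List.reverse h7
    simp only [List.reverse_reverse, List.reverse_append] at this
    rw [this]; simp

/-- Summary: every context-free language has a finite family with two-sided exposures. -/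
theorem exists_exposure_family (g : ContextFreeGrammar Δ) : ∃ (X : Type) (_ : Finite X)
    (V : X → Set (List Δ)) (x0 : X), (∀ x, [] ∉ V x) ∧
    (∀ w, w ∈ V x0 ↔ (w ≠ [] ∧ w ∈ g.language)) ∧
    ∀ (n : ℕ) (x : X) (w : List Δ), w ∈ V x → 2 * n ≤ w.length →
    ∃ (U W : List Δ) (β : List X), U.length = n ∧ W.length = n ∧ β.length ≤ 2 * n + 1 ∧
      (∀ v ∈ pr V β, U ++ v ++ W ∈ V x) ∧ ∃ v ∈ pr V β, w = U ++ v ++ W := by
  obtain ⟨K, hK, T, i0, hT, h0⟩ := exists_cnf g
  exact ⟨K ⊕ ((K × K) ⊕ (K × K)), inferInstance, VV T, Sum.inl i0, VV_ne_nil hT, h0,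
    exposure (lexp_VV hT) (lexp_rev_VV hT)⟩

end vfam

end Pool.Agent.GF
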