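import Mathlib
import Pool.Agent.Hhelper70.GF.Sem

namespace Pool.Agent.GF

variable {X Δ J : Type}

/-- sparse forms: `x₀ Q₁ x₁ ⋯ Q_m x_m` -/
def fl {Δ J : Type} : List (List Δ × J) → List Δ → List (Symbol Δ J)
  | [], y => tm y
  | p :: L, y => tm p.1 ++ Symbol.nonterminal p.2 :: fl L y

theorem fl_append (L L' : List (List Δ × J)) (y : List Δ) :
    fl (L ++ L') y = fl L [] ++ fl L' y := by
  induction L with
  | nil => simp [fl]
  | cons p L ih => simp [fl, ih]

theorem fl_append_tm (L : List (List Δ × J)) (y z : List Δ) :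
    fl L (y ++ z) = fl L y ++ tm z := by
  induction L with
  | nil => simp [fl]
  | cons p L ih => simp [fl, ih]

theorem mem_den_fl_cons {F : J → Set (List Δ)} {x : List Δ} {j : J} {L : List (List Δ × J)}
    {y w : List Δ} : w ∈ den F (fl ((x, j) :: L) y) ↔
      ∃ u ∈ F j, ∃ v ∈ den F (fl L y), w = x ++ (u ++ v) := by
  simp only [fl, mem_den_append, mem_den_tm, mem_den_nonterminal]
  constructor
  · rintro ⟨_, rfl, _, ⟨u, hu, v, hv, rfl⟩, rfl⟩
    exact ⟨u, hu, v, hv, rfl⟩
  · rintro ⟨u, hu, v, hv, rfl⟩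
    exact ⟨x, rfl, _, ⟨u, hu, v, hv, rfl⟩, rfl⟩

theorem mem_den_tm_append {I : Type} {F : I → Set (List Δ)} {x w : List Δ}
    {γ : List (Symbol Δ I)} : w ∈ den F (tm x ++ γ) ↔ ∃ v ∈ den F γ, w = x ++ v := by
  simp [mem_den_append]

theorem mem_den_append_tm {I : Type} {F : I → Set (List Δ)} {x w : List Δ}
    {γ : List (Symbol Δ I)} : w ∈ den F (γ ++ tm x) ↔ ∃ v ∈ den F γ, w = v ++ x := by
  simp [mem_den_append]

/-- index type of the quotient family -/
abbrev QJ (X Δ : Type) (k D : ℕ) : Type :=
  X × {u : List Δ // u.length = k} × {v : List Δ // v.length = k} × Fin D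

/-- the quotient family -/
def QQ (V : X → Set (List Δ)) (k D : ℕ) (j : QJ X Δ k D) : Set (List Δ) :=
  {w | w ≠ [] ∧ j.2.1.1 ++ w ++ j.2.2.1.1 ∈ V j.1 ∧ w.length % D = j.2.2.2.1}

/-- spread condition -/
def Spread (k : ℕ) (L : List (List Δ × J)) (y : List Δ) : Prop :=
  L = [] ∨ ∃ x j L', L = (x, j) :: L' ∧ k ≤ x.length ∧ (∀ p ∈ L', 2 * k ≤ p.1.length) ∧
    k ≤ y.length

/-- prefixing a terminal word -/
def preL (z : List Δ) : List (List Δ × J) → List (List Δ × J)
  | [] => []
  | (x, j) :: L => (z ++ x, j) :: L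

def preY (z : List Δ) (L : List (List Δ × J)) (y : List Δ) : List Δ :=
  match L with
  | [] => z ++ y
  | _ :: _ => y

theorem fl_pre (z : List Δ) (L : List (List Δ × J)) (y : List Δ) :
    fl (preL z L) (preY z L y) = tm z ++ fl L y := by
  cases L with
  | nil => simp [preL, preY, fl]
  | cons p L => simp [preL, preY, fl]

theorem length_preL (z : List Δ) (L : List (List Δ × J)) : (preL z L).length = L.length := by
  cases L <;> rfl

theorem split_ends {k : ℕ} {w : List Δ} (h : 2 * k < w.length) :
    ∃ u m v : List Δ, w = u ++ m ++ v ∧ u.length = k ∧ v.length = k ∧ m ≠ [] := by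
  refine ⟨w.take k, (w.drop k).take (w.length - 2 * k), (w.drop k).drop (w.length - 2 * k),
    ?_, ?_, ?_, ?_⟩
  · rw [List.append_assoc, List.take_append_drop, List.take_append_drop]
  · rw [List.length_take]; omega
  · simp only [List.length_drop]; omega
  · intro h0
    have := congrArg List.length h0
    simp only [List.length_take, List.length_drop, List.length_nil] at this
    omega

theorem sparse {V : X → Set (List Δ)} {k D : ℕ} (hD : 0 < D) (β : List X) :
    ∀ w ∈ pr V β, ∃ (L : List (List Δ × QJ X Δ k D)) (y : List Δ),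
      w ∈ den (QQ V k D) (fl L y) ∧ (∀ v ∈ den (QQ V k D) (fl L y), v ∈ pr V β) ∧
      L.length ≤ β.length ∧ (fl L y).length ≤ β.length * (2 * k + 1) ∧ Spread k L y := by
  induction β with
  | nil =>
    intro w hw
    have : w = [] := hw
    subst this
    refine ⟨[], [], rfl, ?_, le_rfl, by simp [fl], Or.inl rfl⟩
    intro v hv
    exact hv
  | cons x β ih =>
    rintro w ⟨w1, hw1, w2, hw2, rfl⟩
    obtain ⟨L, y, h1, h2, h3, h4, h5⟩ := ih w2 hw2
    by_cases hlen : w1.length ≤ 2 * k
    · refine ⟨preL w1 L, preY w1 L y, ?_, ?_, ?_, ?_, ?_⟩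
      · rw [fl_pre, mem_den_tm_append]
        exact ⟨w2, h1, rfl⟩
      · intro v hv
        rw [fl_pre, mem_den_tm_append] at hv
        obtain ⟨v, hv, rfl⟩ := hv
        exact ⟨w1, hw1, v, h2 v hv, rfl⟩
      · rw [length_preL]; simp; omega
      · rw [fl_pre]
        simp only [List.length_append, List.length_map, List.length_cons]
        have : (β.length + 1) * (2 * k + 1) = β.length * (2 * k + 1) + (2 * k + 1) := by ring
        omega
      · rcases h5 with rfl | ⟨x', j, L', rfl, h6, h7, h8⟩
        · exact Or.inl rfl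
        · right
          refine ⟨w1 ++ x', j, L', rfl, ?_, h7, h8⟩
          rw [List.length_append]; omega
    · obtain ⟨u, m, v, rfl, hu, hv, hm⟩ := split_ends (k := k) (w := w1) (by omega)
      let j : QJ X Δ k D := (x, ⟨u, hu⟩, ⟨v, hv⟩, ⟨m.length % D, Nat.mod_lt _ hD⟩)
      have hmj : m ∈ QQ V k D j := ⟨hm, hw1, rfl⟩
      refine ⟨(u, j) :: preL v L, preY v L y, ?_, ?_, ?_, ?_, ?_⟩
      · rw [mem_den_fl_cons]
        refine ⟨m, hmj, v ++ w2, ?_, by simp⟩
        rw [fl_pre, mem_den_tm_append]
        exact ⟨w2, h1, rfl⟩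
      · intro z hz
        rw [mem_den_fl_cons] at hz
        obtain ⟨a, ha, b, hb, rfl⟩ := hz
        rw [fl_pre, mem_den_tm_append] at hb
        obtain ⟨c, hc, rfl⟩ := hb
        exact ⟨u ++ a ++ v, ha.2.1, c, h2 c hc, by simp⟩
      · simp only [List.length_cons, length_preL]; omega
      · simp only [fl, fl_pre, List.length_append, List.length_map, List.length_cons]
        have : (β.length + 1) * (2 * k + 1) = β.length * (2 * k + 1) + (2 * k + 1) := by ring
        omega
      · right
        refine ⟨u, j, preL v L, rfl, hu.ge, ?_, ?_⟩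
        · rcases h5 with rfl | ⟨x', j', L', rfl, h6, h7, h8⟩
          · intro p hp; simp [preL] at hp
          · intro p hp
            simp only [preL, List.mem_cons] at hp
            rcases hp with rfl | hp
            · simp only [List.length_append]; omega
            · exact h7 p hp
        · rcases h5 with rfl | ⟨x', j', L', rfl, h6, h7, h8⟩
          · simp only [preY, List.length_append]; omega
          · simpa [preY] using h8

/-- the size bound -/
def CC (K k : ℕ) : ℕ := 2 * K + (2 * K + 1) * (2 * k + 1)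

theorem star {V : X → Set (List Δ)}
    (hE : ∀ (n : ℕ) (x : X) (w : List Δ), w ∈ V x → 2 * n ≤ w.length →
      ∃ (U W : List Δ) (β : List X), U.length = n ∧ W.length = n ∧ β.length ≤ 2 * n + 1 ∧
      (∀ v ∈ pr V β, U ++ v ++ W ∈ V x) ∧ ∃ v ∈ pr V β, w = U ++ v ++ W)
    {k K D : ℕ} (hD : 0 < D) (x : X) (u v w : List Δ) (hu : u.length ≤ k) (hv : v.length ≤ k)
    (hw : u ++ w ++ v ∈ V x) (hlen : CC K k < w.length) :
    ∃ (x' : List Δ) (j : QJ X Δ k D) (L : List (List Δ × QJ X Δ k D)) (y : List Δ),
      K ≤ x'.length ∧ K ≤ y.length ∧ (∀ p ∈ L, 2 * k ≤ p.1.length) ∧ L.length ≤ 2 * K ∧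
      (fl ((x', j) :: L) y).length ≤ CC K k ∧
      w ∈ den (QQ V k D) (fl ((x', j) :: L) y) ∧
      ∀ w' ∈ den (QQ V k D) (fl ((x', j) :: L) y), u ++ w' ++ v ∈ V x := by
  obtain ⟨U, W, β, hU, hW, hβ, h1, z, hz, hz2⟩ := hE K x _ hw (by
    simp only [List.length_append, CC] at hlen ⊢; omega)
  obtain ⟨L, y, h2, h3, h4, h5, h6⟩ := sparse (k := k) hD β z hz
  have hsize : β.length * (2 * k + 1) ≤ (2 * K + 1) * (2 * k + 1) :=
    Nat.mul_le_mul_right _ hβ
  rcases h6 with rfl | ⟨x0, j, L', rfl, h7, h8, h9⟩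
  · exfalso
    have : z = y := by simpa [fl] using h2
    subst this
    have h10 := congrArg List.length hz2
    simp only [fl, List.length_append, List.length_map] at h5 h10
    simp only [CC] at hlen
    omega
  · rw [mem_den_fl_cons] at h2
    obtain ⟨a, ha, b, hb, rfl⟩ := h2
    -- strip `u`
    have e1 : u ++ (w ++ v) = (U ++ x0) ++ (a ++ b ++ W) := by
      rw [← List.append_assoc, hz2]; simp
    have hpre : u <+: U ++ x0 := by
      refine List.prefix_of_prefix_length_le (l₃ := u ++ (w ++ v)) ⟨_, rfl⟩ ⟨_, e1.symm⟩ ?_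
      simp only [List.length_append]; omega
    obtain ⟨x', hx'⟩ := hpre
    have hsuf : v <:+ y ++ W := by
      have hbW : ∃ c, u ++ w ++ v = c ++ (y ++ W) := by
        -- `b` ends with `y`
        have : ∀ (L : List (List Δ × QJ X Δ k D)) (b : List Δ),
            b ∈ den (QQ V k D) (fl L y) → ∃ c, b = c ++ y := by
          intro L
          induction L with
          | nil =>
            intro b hb
            have : b = y := by simpa [fl] using hb
            exact ⟨[], by simp [this]⟩
          | cons p L ih =>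
            intro b hb
            obtain ⟨x1, j1⟩ := p
            rw [mem_den_fl_cons] at hb
            obtain ⟨a, _, b', hb', rfl⟩ := hb
            obtain ⟨c, rfl⟩ := ih b' hb'
            exact ⟨x1 ++ (a ++ c), by simp⟩
        obtain ⟨c, rfl⟩ := this L' b hb
        exact ⟨U ++ x0 ++ a ++ c, by rw [hz2]; simp⟩
      obtain ⟨c, hc⟩ := hbW
      refine List.suffix_of_suffix_length_le (l₃ := u ++ w ++ v) ⟨_, rfl⟩ ⟨c, hc.symm⟩ ?_
      simp only [List.length_append]; omega
    obtain ⟨y', hy'⟩ := hsuf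
    have hflx : tm u ++ fl ((x', j) :: L') y' ++ tm v = tm U ++ fl ((x0, j) :: L') y ++ tm W := by
      have e2 : tm u ++ fl ((x', j) :: L') y' ++ tm v
          = tm (u ++ x') ++ Symbol.nonterminal j :: (fl L' y' ++ tm v) := by simp [fl]
      have e3 : tm U ++ fl ((x0, j) :: L') y ++ tm W
          = tm (U ++ x0) ++ Symbol.nonterminal j :: (fl L' y ++ tm W) := by simp [fl]
      rw [e2, e3, hx', ← fl_append_tm, ← fl_append_tm, hy']
    have hden : ∀ w' : List Δ, w' ∈ den (QQ V k D) (fl ((x', j) :: L') y') ↔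
        ∃ v' ∈ den (QQ V k D) (fl ((x0, j) :: L') y), u ++ w' ++ v = U ++ v' ++ W := by
      intro w'
      have h10 : u ++ w' ++ v ∈ den (QQ V k D) (tm u ++ fl ((x', j) :: L') y' ++ tm v) ↔
          w' ∈ den (QQ V k D) (fl ((x', j) :: L') y') := by
        rw [mem_den_append_tm]
        constructor
        · rintro ⟨c, hc, e⟩
          have e' := List.append_cancel_right e
          subst e'
          rw [mem_den_tm_append] at hc
          obtain ⟨d, hd, e⟩ := hc
          have e' := List.append_cancel_left e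
          subst e'
          exact hd
        · intro h
          exact ⟨u ++ w', mem_den_tm_append.2 ⟨w', h, rfl⟩, rfl⟩
      rw [← h10, hflx, mem_den_append_tm]
      constructor
      · rintro ⟨c, hc, e⟩
        rw [mem_den_tm_append] at hc
        obtain ⟨d, hd, rfl⟩ := hc
        exact ⟨d, hd, e⟩
      · rintro ⟨d, hd, e⟩
        exact ⟨U ++ d, mem_den_tm_append.2 ⟨d, hd, rfl⟩, e⟩
    refine ⟨x', j, L', y', ?_, ?_, h8, ?_, ?_, ?_, ?_⟩
    · have := congrArg List.length hx'
      simp only [List.length_append] at this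
      omega
    · have := congrArg List.length hy'
      simp only [List.length_append] at this
      omega
    · simp only [List.length_cons] at h4
      omega
    · have := congrArg List.length hflx
      simp only [List.length_append, List.length_map] at this
      simp only [CC]
      omega
    · rw [hden]
      refine ⟨x0 ++ (a ++ b), ?_, hz2⟩
      rw [mem_den_fl_cons]
      exact ⟨a, ha, b, hb, rfl⟩
    · intro w' hw'
      obtain ⟨v', hv', e⟩ := (hden w').1 hw'
      rw [e]
      exact h1 v' (h3 v' hv')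

end Pool.Agent.GF
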