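import Mathlib
import Pool.Agent.Hhelper70.GF.Defs
import Pool.Agent.Hhelper70.GF.Sparse

namespace Pool.Agent.GF

open ContextFreeGrammar

variable {Δ J : Type}

/-- weight of a sentential form -/
def wt {Δ J : Type} (res : J → ℕ) : List (Symbol Δ J) → ℕ
  | [] => 0
  | Symbol.terminal _ :: γ => 1 + wt res γ
  | Symbol.nonterminal j :: γ => res j + wt res γ

@[simp] theorem wt_append (res : J → ℕ) (γ δ : List (Symbol Δ J)) :
    wt res (γ ++ δ) = wt res γ + wt res δ := by
  induction γ with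
  | nil => simp [wt]
  | cons s γ ih =>
    cases s <;> simp [wt, ih, add_assoc]

@[simp] theorem wt_tm (res : J → ℕ) (x : List Δ) :
    wt res (tm x : List (Symbol Δ J)) = x.length := by
  induction x with
  | nil => rfl
  | cons a x ih =>
    change 1 + wt res (tm x : List (Symbol Δ J)) = x.length + 1
    rw [ih, add_comm]

@[simp] theorem wt_fl_single (res : J → ℕ) (x y : List Δ) (j : J) :
    wt res (fl [(x, j)] y) = x.length + (res j + y.length) := by
  simp only [fl, wt_append, wt_tm, wt]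

theorem wt_fl_cons (res : J → ℕ) (x y : List Δ) (j : J) (L : List (List Δ × J)) :
    wt res (fl ((x, j) :: L) y) = x.length + (res j + wt res (fl L y)) := by
  simp only [fl, wt_append, wt_tm, wt]

theorem len_mod {F : J → Set (List Δ)} {res : J → ℕ} {D : ℕ}
    (hres : ∀ j, ∀ u ∈ F j, u.length % D = res j % D) (γ : List (Symbol Δ J)) :
    ∀ w ∈ den F γ, w.length % D = wt res γ % D := by
  induction γ with
  | nil =>
    intro w hw
    have : w = [] := hw
    subst this
    rfl
  | cons s γ ih =>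
    intro w hw
    cases s with
    | terminal a =>
      obtain ⟨v, hv, rfl⟩ := hw
      simp only [List.length_cons, wt]
      rw [add_comm]
      exact Nat.ModEq.add_left 1 (ih v hv)
    | nonterminal j =>
      obtain ⟨u, hu, v, hv, rfl⟩ := hw
      simp only [List.length_append, wt]
      exact Nat.ModEq.add (hres j u hu) (ih v hv)

theorem split_at (x : List Δ) (n : ℕ) (h : n ≤ x.length) :
    ∃ x1 x2 : List Δ, x = x1 ++ x2 ∧ x1.length = n ∧ x2.length = x.length - n :=
  ⟨x.take n, x.drop n, (List.take_append_drop n x).symm, by simp [h], by simp⟩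

theorem split_at' (x : List Δ) (n : ℕ) (h : n ≤ x.length) :
    ∃ x1 x2 : List Δ, x = x1 ++ x2 ∧ x1.length = x.length - n ∧ x2.length = n := by
  obtain ⟨x1, x2, h1, h2, h3⟩ := split_at x (x.length - n) (by omega)
  exact ⟨x1, x2, h1, h2, by omega⟩

/-- parameters of the tree construction -/
structure Par where
  p : ℕ
  q : ℕ
  r : ℕ
  Z0 : ℕ
  E : ℕ
  D : ℕ
  Al : ℕ → Prop

inductive Tree (P : Par) (res : J → ℕ) : List (Symbol Δ J) → Prop
  | term (z : List Δ) (h1 : P.Z0 ≤ z.length) (h2 : P.Al z.length) : Tree P res (tm z)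
  | leaf (x : List Δ) (j : J) (y : List Δ) (h1 : P.E ≤ x.length) (h2 : x.length < P.E + P.D)
      (h3 : P.E ≤ y.length) (h4 : y.length < P.E + P.D)
      (h5 : P.Al (x.length + (res j + y.length))) : Tree P res (fl [(x, j)] y)
  | node (u v w : List Δ) (β₁ β₂ : List (Symbol Δ J)) (hu : u.length = P.p) (hv : v.length = P.q)
      (hw : w.length = P.r) (h1 : Tree P res β₁) (h2 : Tree P res β₂) :
      Tree P res (tm u ++ (β₁ ++ (tm v ++ (β₂ ++ tm w))))

def NTree (P : Par) (res : J → ℕ) (β : List (Symbol Δ J)) : Prop :=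
  ∃ (u v w : List Δ) (β₁ β₂ : List (Symbol Δ J)), u.length = P.p ∧ v.length = P.q ∧
    w.length = P.r ∧ Tree P res β₁ ∧ Tree P res β₂ ∧
    β = tm u ++ (β₁ ++ (tm v ++ (β₂ ++ tm w)))

theorem NTree.tree {P : Par} {res : J → ℕ} {β : List (Symbol Δ J)} (h : NTree P res β) :
    Tree P res β := by
  obtain ⟨u, v, w, β₁, β₂, hu, hv, hw, h1, h2, rfl⟩ := h
  exact Tree.node u v w β₁ β₂ hu hv hw h1 h2

structure Par.Good (P : Par) : Prop where
  hD : 0 < P.D
  hAl : ∀ n m c, n = m + P.D * c → P.Al n → P.Al m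
  hAl' : ∀ n m c, n = m + P.D * c → P.Al m → P.Al n
  hAl0 : ∀ n c, n + (P.p + P.q + P.r) = P.D * c → P.Al n

theorem exists_chunk (t s Z0 D : ℕ) (hD : 0 < D) (ht : Z0 + D ≤ t) :
    ∃ Z ρ c, t = Z + ρ ∧ ρ < D ∧ Z0 ≤ Z ∧ Z + s = D * c := by
  refine ⟨t - (t + s) % D, (t + s) % D, (t + s) / D, ?_, Nat.mod_lt _ hD, ?_, ?_⟩
  · have := Nat.mod_lt (t + s) hD
    omega
  · have := Nat.mod_lt (t + s) hD
    omega
  · have h1 := Nat.mod_lt (t + s) hD
    have h2 := Nat.div_add_mod (t + s) D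
    omega

theorem exists_pad (N D : ℕ) (hD : 0 < D) : ∃ ρ c, ρ < D ∧ N + ρ = D * c := by
  have h1 := Nat.mod_lt N hD
  have h2 := Nat.div_add_mod N D
  by_cases h : N % D = 0
  · exact ⟨0, N / D, hD, by omega⟩
  · refine ⟨D - N % D, N / D + 1, by omega, ?_⟩
    rw [Nat.mul_add, Nat.mul_one]
    omega

def Par.s (P : Par) : ℕ := P.p + P.q + P.r
def Par.a (P : Par) : ℕ := P.E + 2 * P.s + P.Z0 + P.D

theorem leafL {P : Par} (hP : P.Good) {res : J → ℕ} (x : List Δ) (j : J) (y : List Δ)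
    (hx : P.a ≤ x.length) (hy : P.a ≤ y.length) (hA : P.Al (x.length + (res j + y.length))) :
    NTree P res (fl [(x, j)] y) := by
  have hs : P.s = P.p + P.q + P.r := rfl
  have ha : P.a = P.E + 2 * P.s + P.Z0 + P.D := rfl
  obtain ⟨Z1, ρ1, c1, e1, e2, e3, e4⟩ := exists_chunk (x.length - (2 * P.p + P.q + P.E)) P.s P.Z0 P.D
    hP.hD (by omega)
  obtain ⟨u, x1, rfl, hu, hx1⟩ := split_at x P.p (by omega)
  rw [List.length_append] at *
  obtain ⟨z, x2, rfl, hz, hx2⟩ := split_at x1 Z1 (by omega)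
  rw [List.length_append] at *
  obtain ⟨v, x3, rfl, hv, hx3⟩ := split_at x2 P.q (by omega)
  rw [List.length_append] at *
  obtain ⟨u2, x4, rfl, hu2, hx4⟩ := split_at x3 P.p (by omega)
  rw [List.length_append] at *
  obtain ⟨y1, w, rfl, hy1, hw⟩ := split_at' y P.r (by omega)
  rw [List.length_append] at *
  obtain ⟨Z2, ρ2, c2, f1, f2, f3, f4⟩ := exists_chunk (y1.length - (P.q + P.r + P.E)) P.s P.Z0 P.D
    hP.hD (by omega)
  obtain ⟨y2, w2, rfl, hy2, hw2⟩ := split_at' y1 P.r (by omega)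
  rw [List.length_append] at *
  obtain ⟨y3, z2, rfl, hy3, hz2⟩ := split_at' y2 Z2 (by omega)
  rw [List.length_append] at *
  obtain ⟨y4, v2, rfl, hy4, hv2⟩ := split_at' y3 P.q (by omega)
  rw [List.length_append] at *
  refine ⟨u, v, w, tm z, tm u2 ++ (fl [(x4, j)] y4 ++ (tm v2 ++ (tm z2 ++ tm w2))), hu, hv, hw,
    ?_, ?_, ?_⟩
  · exact Tree.term z (by omega) (hP.hAl0 _ c1 (by rw [hz, ← hs]; exact e4))
  · refine Tree.node u2 v2 w2 _ _ hu2 hv2 hw2 ?_ ?_
    · refine Tree.leaf x4 j y4 (by omega) (by omega) (by omega) (by omega) ?_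
      refine hP.hAl _ _ (c1 + c2) ?_ hA
      rw [Nat.mul_add]
      omega
    · exact Tree.term z2 (by omega) (hP.hAl0 _ c2 (by rw [hz2, ← hs]; exact f4))
  · simp [fl]

theorem cat {P : Par} (hP : P.Good) {res : J → ℕ} {b : ℕ} (hb : 2 * P.a + P.D + P.s ≤ b)
    (L : List (List Δ × J)) : ∀ (x : List Δ) (j : J) (y : List Δ), P.a + P.p ≤ x.length →
    (∀ q ∈ L, b ≤ q.1.length) → P.a + L.length * P.r ≤ y.length →
    P.Al (wt res (fl ((x, j) :: L) y)) → NTree P res (fl ((x, j) :: L) y) := by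
  have hs : P.s = P.p + P.q + P.r := rfl
  induction L with
  | nil =>
    intro x j y hx _ hy hA
    rw [wt_fl_single] at hA
    exact leafL hP x j y (by omega) (by simpa using hy) hA
  | cons q L ih =>
    obtain ⟨x1, j1⟩ := q
    intro x j y hx hL hy hA
    have hx1 : b ≤ x1.length := hL (x1, j1) (by simp)
    obtain ⟨u, x0, rfl, hu, hx0⟩ := split_at x P.p (by omega)
    rw [List.length_append] at *
    obtain ⟨ρ, c, h1, h2⟩ := exists_pad (x0.length + res j + P.a + P.s) P.D hP.hD
    obtain ⟨xa, xb, rfl, hxa, hxb⟩ := split_at x1 (P.a + ρ) (by omega)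
    rw [List.length_append] at *
    obtain ⟨v, xc, rfl, hv, hxc⟩ := split_at xb P.q (by omega)
    rw [List.length_append] at *
    have hlen : (L.length + 1) * P.r = L.length * P.r + P.r := by ring
    rw [List.length_cons] at hy
    obtain ⟨y1, w, rfl, hy1, hw⟩ := split_at' y P.r (by omega)
    rw [List.length_append] at *
    refine ⟨u, v, w, fl [(x0, j)] xa, fl ((xc, j1) :: L) y1, hu, hv, hw, ?_, ?_, ?_⟩
    · apply NTree.tree
      refine leafL hP x0 j xa (by omega) (by omega) ?_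
      refine hP.hAl0 _ c ?_
      rw [← h2]
      omega
    · apply NTree.tree
      refine ih xc j1 y1 (by omega) (fun q hq => hL q (List.mem_cons_of_mem _ hq)) (by omega) ?_
      refine hP.hAl _ _ c ?_ hA
      rw [wt_fl_cons, wt_fl_cons, wt_fl_cons, fl_append_tm, wt_append, wt_tm]
      simp only [List.length_append]
      omega
    · simp [fl, fl_append_tm]

theorem mainL {P : Par} (hP : P.Good) {res : J → ℕ} {b : ℕ}
    (L : List (List Δ × J)) (hb : 2 * P.a + P.D + P.s + L.length * P.r ≤ b)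
    (x : List Δ) (j : J) (y : List Δ) (hx : P.a + 2 * P.p ≤ x.length)
    (hL : ∀ q ∈ L, b ≤ q.1.length) (hy : P.a + P.r ≤ y.length)
    (hA : P.Al (wt res (fl ((x, j) :: L) y))) : NTree P res (fl ((x, j) :: L) y) := by
  have hs : P.s = P.p + P.q + P.r := rfl
  rcases List.eq_nil_or_concat L with rfl | ⟨L1, ⟨x1, j1⟩, rfl⟩
  · rw [wt_fl_single] at hA
    exact leafL hP x j y (by omega) (by omega) hA
  · rw [List.concat_eq_append] at *
    have hx1 : b ≤ x1.length := hL (x1, j1) (by simp)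
    obtain ⟨u, x0, rfl, hu, hx0⟩ := split_at x P.p (by omega)
    rw [List.length_append] at *
    obtain ⟨y1, w, rfl, hy1, hw⟩ := split_at' y P.r (by omega)
    rw [List.length_append] at *
    obtain ⟨ρ, c, h1, h2⟩ := exists_pad (P.a + res j1 + y1.length + P.s) P.D hP.hD
    have hlen : (L1.length + [(x1, j1)].length) * P.r = L1.length * P.r + P.r := by
      simp; ring
    rw [hlen] at hb
    obtain ⟨xa, xb, rfl, hxa, hxb⟩ := split_at' x1 (P.a + ρ) (by omega)
    rw [List.length_append] at *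
    obtain ⟨xc, v, rfl, hxc, hv⟩ := split_at' xa P.q (by omega)
    rw [List.length_append] at *
    have e : fl ((u ++ x0, j) :: (L1 ++ [(xc ++ v ++ xb, j1)])) (y1 ++ w) =
        tm u ++ (fl ((x0, j) :: L1) xc ++ (tm v ++ (fl [(xb, j1)] y1 ++ tm w))) := by
      have h3 : fl L1 xc = fl L1 [] ++ tm xc := by
        have := fl_append_tm L1 [] xc
        simpa using this
      simp [fl, fl_append, h3]
    refine ⟨u, v, w, fl ((x0, j) :: L1) xc, fl [(xb, j1)] y1, hu, hv, hw, ?_, ?_, e⟩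
    · apply NTree.tree
      refine cat hP (b := b) (by omega) L1 x0 j xc (by omega)
        (fun q hq => hL q (List.mem_append_left _ hq)) (by omega) ?_
      refine hP.hAl _ _ c ?_ hA
      rw [e]
      simp only [wt_append, wt_tm, wt_fl_single]
      omega
    · apply NTree.tree
      refine leafL hP xb j1 y1 (by omega) (by omega) ?_
      refine hP.hAl0 _ c ?_
      rw [← h2]
      omega

section simul
variable {T I : Type} {g : ContextFreeGrammar T} {c : T} {A : g.NT} {lab : I → g.NT}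
  {FI : I → Set (List Δ)} {F : J → Set (List Δ)} {res : J → ℕ} {P : Par}

theorem map_tm (x : List Δ) : (tm x : List (Symbol Δ I)).map (smap (fun _ => c) lab) =
    pow g c x.length := by
  rw [smap_tm]
  simp [tm, pow]

theorem Tree.toSim
    (hne : ∀ j, [] ∉ F j) (hZ : 1 ≤ P.Z0)
    (hA : g.Derives [Symbol.nonterminal A] (pow g c P.p ++ [Symbol.nonterminal A] ++ pow g c P.q ++
      [Symbol.nonterminal A] ++ pow g c P.r))
    (hT : ∀ n, P.Z0 ≤ n → P.Al n → g.Derives [Symbol.nonterminal A] (pow g c n))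
    (hleaf : ∀ (x : List Δ) (j : J) (y : List Δ), P.E ≤ x.length → x.length < P.E + P.D →
      P.E ≤ y.length → y.length < P.E + P.D → P.Al (x.length + (res j + y.length)) →
      ∃ i : I, lab i = A ∧ FI i = den F (fl [(x, j)] y))
    {β : List (Symbol Δ J)} (h : Tree P res β) :
    ∃ γ : List (Symbol Δ I), γ.length ≤ β.length ∧ den FI γ = den F β ∧
      g.Derives [Symbol.nonterminal A] (γ.map (smap (fun _ => c) lab)) ∧
      ∀ w ∈ den F β, 0 < w.length ∧ w ∈ den (fun i => {u | u ∈ FI i ∧ u.length ≤ w.length}) γ := by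
  induction h with
  | term z h1 h2 =>
    refine ⟨tm z, by simp, ?_, ?_, ?_⟩
    · ext w; simp
    · rw [map_tm]
      exact hT _ h1 h2
    · intro w hw
      have : w = z := by simpa using hw
      subst this
      exact ⟨by omega, by simp⟩
  | leaf x j y h1 h2 h3 h4 h5 =>
    obtain ⟨i, hi, hF⟩ := hleaf x j y h1 h2 h3 h4 h5
    refine ⟨[Symbol.nonterminal i], by simp [fl]; omega, ?_, ?_, ?_⟩
    · ext w
      rw [mem_den_single, hF]
    · simp only [List.map_cons, List.map_nil, smap, hi]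
      exact Derives.refl _
    · intro w hw
      constructor
      · rw [mem_den_fl_cons] at hw
        obtain ⟨u, hu, v, hv, rfl⟩ := hw
        have : u ≠ [] := by rintro rfl; exact hne j hu
        have := List.length_pos_of_ne_nil this
        simp only [List.length_append]
        omega
      · rw [mem_den_single]
        exact ⟨hF ▸ hw, le_rfl⟩
  | node u v w β₁ β₂ hu hv hw h1 h2 ih1 ih2 =>
    obtain ⟨γ₁, a1, a2, a3, a4⟩ := ih1
    obtain ⟨γ₂, b1, b2, b3, b4⟩ := ih2
    refine ⟨tm u ++ (γ₁ ++ (tm v ++ (γ₂ ++ tm w))), ?_, ?_, ?_, ?_⟩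
    · simp only [List.length_append, List.length_map]
      omega
    · ext z
      simp only [mem_den_append, mem_den_tm, a2, b2]
    · simp only [List.map_append, map_tm, hu, hv, hw]
      refine hA.trans ?_
      simp only [List.append_assoc]
      exact derives_append (Derives.refl _) (derives_append a3 (derives_append (Derives.refl _)
        (derives_append b3 (Derives.refl _))))
    · intro z hz
      simp only [mem_den_append, mem_den_tm] at hz
      obtain ⟨_, rfl, _, ⟨z1, hz1, _, ⟨_, rfl, _, ⟨z2, hz2, _, rfl, rfl⟩, rfl⟩, rfl⟩, rfl⟩ := hz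
      obtain ⟨l1, l2⟩ := a4 z1 hz1
      obtain ⟨l3, l4⟩ := b4 z2 hz2
      constructor
      · simp only [List.length_append]; omega
      · simp only [mem_den_append, mem_den_tm]
        refine ⟨_, rfl, _, ⟨z1, den_mono ?_ _ l2, _, ⟨_, rfl, _, ⟨z2, den_mono ?_ _ l4, _, rfl, rfl⟩,
          rfl⟩, rfl⟩, rfl⟩
        · rintro i x ⟨hx1, hx2⟩
          refine ⟨hx1, ?_⟩
          simp only [List.length_append]; omega
        · rintro i x ⟨hx1, hx2⟩
          refine ⟨hx1, ?_⟩
          simp only [List.length_append]; omega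

theorem NTree.toSim
    (hne : ∀ j, [] ∉ F j) (hZ : 1 ≤ P.Z0)
    (hA : g.Derives [Symbol.nonterminal A] (pow g c P.p ++ [Symbol.nonterminal A] ++ pow g c P.q ++
      [Symbol.nonterminal A] ++ pow g c P.r))
    (hT : ∀ n, P.Z0 ≤ n → P.Al n → g.Derives [Symbol.nonterminal A] (pow g c n))
    (hleaf : ∀ (x : List Δ) (j : J) (y : List Δ), P.E ≤ x.length → x.length < P.E + P.D →
      P.E ≤ y.length → y.length < P.E + P.D → P.Al (x.length + (res j + y.length)) →
      ∃ i : I, lab i = A ∧ FI i = den F (fl [(x, j)] y))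
    {β : List (Symbol Δ J)} (h : NTree P res β) :
    ∃ γ : List (Symbol Δ I), γ.length ≤ β.length ∧ den FI γ = den F β ∧
      g.Derives [Symbol.nonterminal A] (γ.map (smap (fun _ => c) lab)) ∧
      ∀ w ∈ den F β, w ∈ den (fun i => {u | u ∈ FI i ∧ u.length < w.length}) γ := by
  obtain ⟨u, v, w, β₁, β₂, hu, hv, hw, h1, h2, rfl⟩ := h
  obtain ⟨γ₁, a1, a2, a3, a4⟩ := h1.toSim hne hZ hA hT hleaf
  obtain ⟨γ₂, b1, b2, b3, b4⟩ := h2.toSim hne hZ hA hT hleaf
  refine ⟨tm u ++ (γ₁ ++ (tm v ++ (γ₂ ++ tm w))), ?_, ?_, ?_, ?_⟩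
  · simp only [List.length_append, List.length_map]
    omega
  · ext z
    simp only [mem_den_append, mem_den_tm, a2, b2]
  · simp only [List.map_append, map_tm, hu, hv, hw]
    refine hA.trans ?_
    simp only [List.append_assoc]
    exact derives_append (Derives.refl _) (derives_append a3 (derives_append (Derives.refl _)
      (derives_append b3 (Derives.refl _))))
  · intro z hz
    simp only [mem_den_append, mem_den_tm] at hz
    obtain ⟨_, rfl, _, ⟨z1, hz1, _, ⟨_, rfl, _, ⟨z2, hz2, _, rfl, rfl⟩, rfl⟩, rfl⟩, rfl⟩ := hz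
    obtain ⟨l1, l2⟩ := a4 z1 hz1
    obtain ⟨l3, l4⟩ := b4 z2 hz2
    simp only [mem_den_append, mem_den_tm]
    refine ⟨_, rfl, _, ⟨z1, den_mono ?_ _ l2, _, ⟨_, rfl, _, ⟨z2, den_mono ?_ _ l4, _, rfl, rfl⟩,
      rfl⟩, rfl⟩, rfl⟩
    · rintro i x ⟨hx1, hx2⟩
      refine ⟨hx1, ?_⟩
      simp only [List.length_append]; omega
    · rintro i x ⟨hx1, hx2⟩
      refine ⟨hx1, ?_⟩
      simp only [List.length_append]; omega

end simul

end Pool.Agent.GF
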