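import Mathlib
import Pool.Agent.Hhelper70.GF.Defs
import Pool.Agent.Hhelper70.GF.Simul
import Pool.Agent.Hhelper70.GF.Tree
import Pool.Agent.Hhelper70.GF.Pack

namespace Pool.Agent.GF

open ContextFreeGrammar

variable {T Δ : Type} {g : ContextFreeGrammar T} {c : T}

/-- residue of the quotient index -/
def resQ {X Δ : Type} {k D : ℕ} (j : QJ X Δ k D) : ℕ := j.2.2.2.1

theorem resQ_mod {X : Type} (V : X → Set (List Δ)) {k D : ℕ} (j : QJ X Δ k D) (u : List Δ)
    (hu : u ∈ QQ V k D j) : u.length % D = resQ j % D := by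
  have h1 := hu.2.2
  rw [h1]
  exact (Nat.mod_eq_of_lt j.2.2.2.2).symm

def parOf (D Z0 ρ p q r P Q : ℕ) : Par where
  p := p
  q := q
  r := r
  Z0 := Z0
  E := Z0
  D := D
  Al := fun n => (n + (p + q + r)) % D = 0 ∨ (P + n + Q) % D = ρ

theorem parOf_good {D Z0 ρ p q r P Q : ℕ} (hD : 0 < D) : (parOf D Z0 ρ p q r P Q).Good where
  hD := hD
  hAl := by
    rintro n m c rfl h
    change (m + (p + q + r)) % D = 0 ∨ (P + m + Q) % D = ρ
    rcases h with h | h
    · left
      have e : (m + D * c + (p + q + r)) = (m + (p + q + r)) + D * c := by ring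
      change (m + D * c + (p + q + r)) % D = 0 at h
      rw [e, Nat.add_mul_mod_self_left] at h
      exact h
    · right
      have e : (P + (m + D * c) + Q) = (P + m + Q) + D * c := by ring
      change (P + (m + D * c) + Q) % D = ρ at h
      rw [e, Nat.add_mul_mod_self_left] at h
      exact h
  hAl' := by
    rintro n m c rfl h
    change (m + D * c + (p + q + r)) % D = 0 ∨ (P + (m + D * c) + Q) % D = ρ
    rcases h with h | h
    · left
      have e : (m + D * c + (p + q + r)) = (m + (p + q + r)) + D * c := by ring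
      rw [e, Nat.add_mul_mod_self_left]
      exact h
    · right
      have e : (P + (m + D * c) + Q) = (P + m + Q) + D * c := by ring
      rw [e, Nat.add_mul_mod_self_left]
      exact h
  hAl0 := by
    intro n c h
    left
    have h : n + (p + q + r) = D * c := h
    change (n + (p + q + r)) % D = 0
    rw [h, Nat.mul_mod_right]

theorem Par.Good.al_congr {P : Par} (hP : P.Good) {n m : ℕ} (h : n % P.D = m % P.D)
    (hA : P.Al n) : P.Al m := by
  rcases le_total n m with hle | hle
  · obtain ⟨t, ht⟩ := (Nat.modEq_iff_dvd' hle).1 h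
    exact hP.hAl' m n t (by omega) hA
  · obtain ⟨t, ht⟩ := (Nat.modEq_iff_dvd' hle).1 h.symm
    exact hP.hAl n m t (by omega) hA

theorem sufficiency [Finite Δ] (h1 : ∀ n, 1 ≤ n → g.Derives [Symbol.nonterminal g.initial]
    (pow g c n)) (h2 : Cond2 g c) (gL : ContextFreeGrammar Δ) :
    ∃ g' : ContextFreeGrammar Δ, IsSInterpretation g' g ∧
      ∀ w, w ∈ g'.language ↔ (w ≠ [] ∧ w ∈ gL.language) := by
  classical
  obtain ⟨D, hD, Z0, hZ0, hpack⟩ := pack h2
  have : Nonempty g.NT := ⟨g.initial⟩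
  choose! A p q r P Q hP hQ hs hA hS hT using hpack
  obtain ⟨X, hX, V, x0, hne, hV0, hE⟩ := exists_exposure_family gL
  -- constants
  obtain ⟨a, ha⟩ : ∃ a, a = 4 * Z0 + D := ⟨_, rfl⟩
  obtain ⟨K, hK⟩ : ∃ K, K = a + 2 * Z0 := ⟨_, rfl⟩
  obtain ⟨k, hk⟩ : ∃ k, k = 2 * a + D + 2 * Z0 + 2 * K * Z0 := ⟨_, rfl⟩
  let J := QJ X Δ k D
  let LT := {x : List Δ // x.length ≤ Z0 + D}
  have hfin1 : Finite LT := finite_bounded_lists Δ _
  have hfin2 : Finite {u : List Δ // u.length = k} := List.finite_length_eq Δ k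
  let F : J → Set (List Δ) := QQ V k D
  let Pa : ℕ → Par := fun ρ => parOf D Z0 ρ (p ρ) (q ρ) (r ρ) (P ρ) (Q ρ)
  have hPa : ∀ ρ, (Pa ρ).Good := fun ρ => parOf_good hD
  let I := Option (Fin D × (LT × (J × LT)))
  let lab : I → g.NT := fun i => match i with
    | none => g.initial
    | some x => A x.1.1
  let leafC : ℕ → List Δ → J → List Δ → Prop := fun ρ x j y =>
    Z0 ≤ x.length ∧ Z0 ≤ y.length ∧ (Pa ρ).Al (x.length + (resQ j + y.length))
  let FI : I → Set (List Δ) := fun i => match i with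
    | none => V x0
    | some x => {w | leafC x.1.1 x.2.1.1 x.2.2.1 x.2.2.2.1 ∧
        w ∈ den F (fl [(x.2.1.1, x.2.2.1)] x.2.2.2.1)}
  have hFne : ∀ j, [] ∉ F j := fun j h => h.1 rfl
  have hres : ∀ j, ∀ u ∈ F j, u.length % D = resQ j % D := fun j u hu => resQ_mod V j u hu
  -- leaves are indexed
  have hleaf : ∀ ρ, ρ < D → ∀ (x : List Δ) (j : J) (y : List Δ), (Pa ρ).E ≤ x.length →
      x.length < (Pa ρ).E + (Pa ρ).D → (Pa ρ).E ≤ y.length → y.length < (Pa ρ).E + (Pa ρ).D →
      (Pa ρ).Al (x.length + (resQ j + y.length)) →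
      ∃ i : I, lab i = A ρ ∧ FI i = den F (fl [(x, j)] y) := by
    intro ρ hρ x j y e1 e2 e3 e4 e5
    refine ⟨some (⟨ρ, hρ⟩, ⟨x, le_of_lt e2⟩, j, ⟨y, le_of_lt e4⟩), rfl, ?_⟩
    ext w
    exact ⟨fun h => h.2, fun h => ⟨⟨e1, e3, e5⟩, h⟩⟩
  -- long forms can be simulated
  have hsim : ∀ ρ, ρ < D → ∀ (x : List Δ) (j : J) (L : List (List Δ × J)) (y : List Δ),
      K ≤ x.length → K ≤ y.length → (∀ p ∈ L, 2 * k ≤ p.1.length) → L.length ≤ 2 * K →
      (Pa ρ).Al (wt resQ (fl ((x, j) :: L) y)) →
      ∃ γ : List (Symbol Δ I), γ.length ≤ (fl ((x, j) :: L) y).length ∧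
        den FI γ = den F (fl ((x, j) :: L) y) ∧
        g.Derives [Symbol.nonterminal (A ρ)] (γ.map (smap (fun _ => c) lab)) ∧
        ∀ w ∈ den F (fl ((x, j) :: L) y),
          w ∈ den (fun i => {u | u ∈ FI i ∧ u.length < w.length}) γ := by
    intro ρ hρ x j L y hx hy hL hL2 hAl
    have hs' := hs ρ hρ
    have hPs : (Pa ρ).s = p ρ + q ρ + r ρ := rfl
    have hPa' : (Pa ρ).a = Z0 + 2 * (p ρ + q ρ + r ρ) + Z0 + D := rfl
    have hPD : (Pa ρ).D = D := rfl
    have hPp : (Pa ρ).p = p ρ := rfl
    have hPr : (Pa ρ).r = r ρ := rfl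
    have hNT : NTree (Pa ρ) resQ (fl ((x, j) :: L) y) := by
      refine mainL (hPa ρ) (b := 2 * k) L ?_ x j y ?_ hL ?_ hAl
      · have h5 : L.length * (Pa ρ).r ≤ 2 * K * Z0 := by
          apply Nat.mul_le_mul hL2
          omega
        omega
      · omega
      · omega
    exact hNT.toSim hFne hZ0 (hA ρ hρ) (hT ρ hρ) (hleaf ρ hρ)
  obtain ⟨C, hC⟩ : ∃ C, C = CC K k := ⟨_, rfl⟩
  obtain ⟨B, hB⟩ : ∃ B, B = 2 * C + 4 * k + 4 * Z0 + 2 * D + 2 * Z0 + 2 * (Z0 + D) := ⟨_, rfl⟩
  obtain ⟨g', hg', hg2⟩ := simul_thm g c lab FI B none rfl (by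
    intro i w hw
    cases i with
    | none =>
      have hw : w ∈ V x0 := hw
      have hwne : w ≠ [] := by rintro rfl; exact hne _ hw
      have hwpos := List.length_pos_of_ne_nil hwne
      by_cases hlen : w.length ≤ C + 2 * k
      · refine ⟨tm w, ?_, ?_, ?_, ?_⟩
        · rw [List.length_map]; omega
        · rw [map_tm]; exact h1 _ hwpos
        · intro v hv
          have : v = w := by simpa using hv
          rw [this]; exact hw
        · simp
      · obtain ⟨ρ, hρe⟩ : ∃ ρ, ρ = w.length % D := ⟨_, rfl⟩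
        have hρ : ρ < D := by rw [hρe]; exact Nat.mod_lt _ hD
        have hPle := hP ρ hρ
        have hQle := hQ ρ hρ
        obtain ⟨x, w1, rfl, hx, hw1⟩ := split_at w (P ρ) (by omega)
        rw [List.length_append] at *
        obtain ⟨w2, y, rfl, hw2, hy⟩ := split_at' w1 (Q ρ) (by omega)
        rw [List.length_append] at *
        rw [← List.append_assoc] at hw
        obtain ⟨x', j, L, y', hx', hy', hL, hL2, hsz, hmem, hsnd⟩ := star hE (k := k) (K := K) hD x0 x y w2
          (by omega) (by omega) hw (by omega)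
        have hwt := len_mod hres _ _ hmem
        have hAl : (Pa ρ).Al (wt resQ (fl ((x', j) :: L) y')) := by
          refine (hPa ρ).al_congr hwt ?_
          right
          change (P ρ + w2.length + Q ρ) % D = ρ
          conv_rhs => rw [hρe]
          congr 1
          omega
        obtain ⟨γ, hγ1, hγ2, hγ3, hγ4⟩ := hsim ρ hρ x' j L y' hx' hy' hL hL2 hAl
        refine ⟨tm x ++ (γ ++ tm y), ?_, ?_, ?_, ?_⟩
        · simp only [List.length_append, List.length_map]
          rw [← hC] at hsz
          omega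
        · refine (hS ρ hρ).trans ?_
          rw [List.map_append, List.map_append, map_tm, map_tm, hx, hy, List.append_assoc]
          exact derives_append (Derives.refl _) (derives_append hγ3 (Derives.refl _))
        · intro v hv
          rw [mem_den_tm_append] at hv
          obtain ⟨v, hv, rfl⟩ := hv
          rw [mem_den_append_tm] at hv
          obtain ⟨v, hv, rfl⟩ := hv
          rw [hγ2] at hv
          have := hsnd v hv
          rw [List.append_assoc] at this
          exact this
        · rw [mem_den_tm_append]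
          refine ⟨w2 ++ y, ?_, rfl⟩
          rw [mem_den_append_tm]
          refine ⟨w2, den_mono ?_ _ (hγ4 w2 hmem), rfl⟩
          rintro i u ⟨hu1, hu2⟩
          refine ⟨hu1, ?_⟩
          omega
    | some z =>
      obtain ⟨⟨ρ, hρ⟩, ⟨x, hx⟩, j, ⟨y, hy⟩⟩ := z
      obtain ⟨⟨hxE, hyE, hAl0⟩, hw⟩ : leafC ρ x j y ∧ w ∈ den F (fl [(x, j)] y) := hw
      rw [mem_den_fl_cons] at hw
      obtain ⟨w0, hw0, v, hv, rfl⟩ := hw
      have hvy : y = v := by
        have : v = y := by simpa [fl] using hv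
        exact this.symm
      subst hvy
      have hFI : ∀ w', w' ∈ den F (fl [(x, j)] y) →
          w' ∈ FI (some (⟨ρ, hρ⟩, ⟨x, hx⟩, j, ⟨y, hy⟩)) := fun w' h => ⟨⟨hxE, hyE, hAl0⟩, h⟩
      have hAlw : (Pa ρ).Al (x ++ (w0 ++ y)).length := by
        refine (hPa ρ).al_congr ?_ hAl0
        have := len_mod hres (fl [(x, j)] y) (x ++ (w0 ++ y)) (by
          rw [mem_den_fl_cons]
          exact ⟨w0, hw0, y, hv, rfl⟩)
        rw [wt_fl_single] at this
        exact this.symm
      by_cases hlen : w0.length ≤ C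
      · refine ⟨tm (x ++ (w0 ++ y)), ?_, ?_, ?_, ?_⟩
        · simp only [List.length_map, List.length_append]
          omega
        · rw [map_tm]
          refine hT ρ hρ _ ?_ hAlw
          simp only [List.length_append]
          omega
        · intro v' hv'
          have : v' = x ++ (w0 ++ y) := mem_den_tm.1 hv'
          rw [this]
          apply hFI
          rw [mem_den_fl_cons]
          exact ⟨w0, hw0, y, hv, rfl⟩
        · rw [mem_den_tm]
      · obtain ⟨x1, ⟨u0, hu0⟩, ⟨v0, hv0⟩, ρ', hρ'⟩ := j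
        obtain ⟨hw0ne, hw0V, hw0m⟩ := hw0
        obtain ⟨x', j', L, y', hx', hy', hL, hL2, hsz, hmem, hsnd⟩ := star hE (k := k) (K := K) hD x1 u0 v0 w0
          (by omega) (by omega) hw0V (by omega)
        have hwt := len_mod hres _ _ hmem
        have hfl : fl ((x ++ x', j') :: L) (y' ++ y) = tm x ++ (fl ((x', j') :: L) y' ++ tm y) := by
          rw [← fl_append_tm]
          simp [fl]
        have hAl : (Pa ρ).Al (wt resQ (fl ((x ++ x', j') :: L) (y' ++ y))) := by
          refine (hPa ρ).al_congr ?_ hAlw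
          refine len_mod hres _ _ ?_
          rw [hfl, mem_den_tm_append]
          refine ⟨w0 ++ y, ?_, rfl⟩
          rw [mem_den_append_tm]
          exact ⟨w0, hmem, rfl⟩
        obtain ⟨γ, hγ1, hγ2, hγ3, hγ4⟩ := hsim ρ hρ (x ++ x') j' L (y' ++ y)
          (by rw [List.length_append]; omega) (by rw [List.length_append]; omega) hL hL2 hAl
        refine ⟨γ, ?_, hγ3, ?_, ?_⟩
        · rw [hfl] at hγ1
          simp only [List.length_append, List.length_map] at hγ1
          rw [← hC] at hsz
          omega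
        · rw [hγ2, hfl]
          intro v' hv'
          apply hFI
          rw [mem_den_tm_append] at hv'
          obtain ⟨v', hv', rfl⟩ := hv'
          rw [mem_den_append_tm] at hv'
          obtain ⟨v', hv', rfl⟩ := hv'
          rw [mem_den_fl_cons]
          refine ⟨v', ⟨?_, hsnd v' hv', ?_⟩, y, hv, rfl⟩
          · rintro rfl
            rw [mem_den_fl_cons] at hv'
            obtain ⟨_, _, _, _, h⟩ := hv'
            have := congrArg List.length h
            simp only [List.length_nil, List.length_append] at this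
            omega
          · have h5 := len_mod hres _ _ hv'
            rw [h5, ← hwt]
            exact hw0m
        · apply hγ4
          rw [hfl, mem_den_tm_append]
          refine ⟨w0 ++ y, ?_, rfl⟩
          rw [mem_den_append_tm]
          exact ⟨w0, hmem, rfl⟩)
  refine ⟨g', hg', ?_⟩
  intro w
  rw [hg2]
  exact hV0 w

end Pool.Agent.GF
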